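import Pool.Agent.Helper35.AMn.Basic

/-!
# AMn-AV: averages over boxes in `Z^N` (project RK, MP_0f6f3f_an)

PROOF IN WORDS of `avg_shift`. Let `B = prod_p [0, M)` and `B_a = prod_p [a_p, M + a_p)` (`Fintype.piFinset`, `Finset.Ico`).
`sum_(z in B) P (z + a) = sum_(z in B_a) P z` (bijection `z -> z + a`), and `sum_(B_a) P - sum_B P = sum_(B_a \ B) P - sum_(B \ B_a) P`; for a
finite set `s` of elements of `G` the sum over `s` of the absolute values is at most `#(B_a \ B) + #(B \ B_a)` (each `P z` is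
nonnegative with sums at most one). `#(B \ B_a) <= sum_p #{z in B : z_p not in [a_p, M + a_p)} <= sum_p |a_p| M^(N-1)` (this set is
`Fintype.piFinset (Function.update (fun _ => Ico 0 M) p (Ico 0 M \ Ico a_p (M + a_p)))`, card by `Fintype.card_piFinset`, `Finset.prod_update_of_mem`,
and `Ico 0 M \ Ico a (M + a)` is contained in `Ico 0 a` if `a >= 0` and in `Ico (M + a) M` otherwise); and `#(B_a \ B) = #(B \ B_a)` as the two
boxes have the same number of elements (`Finset.card_sdiff_comm`). Divide by `M^N`.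
(For `N = 2` another proof is in `Pool/Agent/Helper35/AM/Avg.lean`.)
-/

open Finset Matrix

namespace Pool.Agent.Helper35.AMn

variable {N : ℕ} {G : Type*}

/-- The box `[0, M)^N`. -/
noncomputable def box (N M : ℕ) : Finset (Fin N → ℤ) := Fintype.piFinset fun _ => Finset.Ico (0 : ℤ) M

/-- Average over the box. -/
noncomputable def avg (M : ℕ) (P : (Fin N → ℤ) → G → ℝ) (g : G) : ℝ :=
  (∑ z ∈ box N M, P z g) / (M : ℝ) ^ N

theorem mem_box {M : ℕ} {z : Fin N → ℤ} : z ∈ box N M ↔ ∀ p, 0 ≤ z p ∧ z p < M := by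
  unfold box
  rw [Fintype.mem_piFinset]
  simp only [Finset.mem_Ico]

theorem card_box (N M : ℕ) : (box N M).card = M ^ N := by
  unfold box
  rw [Fintype.card_piFinset]
  simp

theorem avg_nonneg (M : ℕ) {P : (Fin N → ℤ) → G → ℝ} (h0 : ∀ z g, 0 ≤ P z g) (g : G) : 0 ≤ avg M P g :=
  div_nonneg (Finset.sum_nonneg fun z _ => h0 z g) (by positivity)

theorem avg_hasSum {M : ℕ} (hM : 1 ≤ M) {P : (Fin N → ℤ) → G → ℝ} (h : ∀ z, HasSum (P z) 1) :
    HasSum (avg M P) 1 := by
  have h1 : HasSum (fun g => ∑ z ∈ box N M, P z g) (∑ _z ∈ box N M, (1 : ℝ)) :=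
    hasSum_sum fun z _ => h z
  have h2 := h1.div_const ((M : ℝ) ^ N)
  have h3 : (∑ _z ∈ box N M, (1 : ℝ)) / (M : ℝ) ^ N = 1 := by
    rw [Finset.sum_const, card_box, nsmul_eq_mul, mul_one, Nat.cast_pow]
    exact div_self (pow_ne_zero _ (by exact_mod_cast (by omega : M ≠ 0)))
  rw [h3] at h2
  exact h2

theorem avg_dist {M : ℕ} (hM : 1 ≤ M) {P Q : (Fin N → ℤ) → G → ℝ} {e : ℝ}
    (h : ∀ z ∈ box N M, Dist (P z) (Q z) e) : Dist (avg M P) (avg M Q) e := by
  intro s
  have hM0 : (0 : ℝ) < (M : ℝ) ^ N := pow_pos (by exact_mod_cast hM) _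
  have h1 : ∀ t, |avg M P t - avg M Q t| ≤ (∑ z ∈ box N M, |P z t - Q z t|) / (M : ℝ) ^ N := by
    intro t
    unfold avg
    rw [← sub_div, ← Finset.sum_sub_distrib, abs_div, abs_of_pos hM0]
    exact div_le_div_of_nonneg_right (Finset.abs_sum_le_sum_abs _ _) hM0.le
  calc ∑ t ∈ s, |avg M P t - avg M Q t|
      ≤ ∑ t ∈ s, (∑ z ∈ box N M, |P z t - Q z t|) / (M : ℝ) ^ N := Finset.sum_le_sum fun t _ => h1 t
    _ = (∑ z ∈ box N M, ∑ t ∈ s, |P z t - Q z t|) / (M : ℝ) ^ N := by
        rw [← Finset.sum_div, Finset.sum_comm]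
    _ ≤ (∑ _z ∈ box N M, e) / (M : ℝ) ^ N :=
        div_le_div_of_nonneg_right (Finset.sum_le_sum fun z hz => h z hz s) hM0.le
    _ = e := by
        rw [Finset.sum_const, card_box, nsmul_eq_mul, Nat.cast_pow]
        field_simp

private theorem av_card_slab {M : ℕ} (a : Fin N → ℤ) (p : Fin N) :
    (((box N M).filter fun z => ¬ (0 ≤ z p - a p ∧ z p - a p < M)).card : ℝ) * M ≤
      ((|a p| : ℤ) : ℝ) * (M : ℝ) ^ N := by
  classical
  set T := (Finset.Ico (0 : ℤ) M).filter fun x => ¬ (0 ≤ x - a p ∧ x - a p < M) with hT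
  have h1 : ((box N M).filter fun z => ¬ (0 ≤ z p - a p ∧ z p - a p < M)) =
      Fintype.piFinset (Function.update (fun _ => Finset.Ico (0 : ℤ) M) p T) := by
    ext z
    rw [Finset.mem_filter, mem_box, Fintype.mem_piFinset]
    constructor
    · rintro ⟨h1, h2⟩ i
      by_cases hi : i = p
      · subst hi
        rw [Function.update_self, hT, Finset.mem_filter, Finset.mem_Ico]
        exact ⟨h1 i, h2⟩
      · rw [Function.update_of_ne hi, Finset.mem_Ico]
        exact h1 i
    · intro h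
      have hp := h p
      rw [Function.update_self, hT, Finset.mem_filter, Finset.mem_Ico] at hp
      refine ⟨fun i => ?_, hp.2⟩
      by_cases hi : i = p
      · subst hi
        exact hp.1
      · have := h i
        rwa [Function.update_of_ne hi, Finset.mem_Ico] at this
  have h2 : T.card ≤ (a p).natAbs := by
    rcases le_total 0 (a p) with h | h
    · have hsub : T ⊆ Finset.Ico (0 : ℤ) (a p) := by
        intro x hx
        rw [hT, Finset.mem_filter, Finset.mem_Ico] at hx
        rw [Finset.mem_Ico]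
        refine ⟨hx.1.1, ?_⟩
        by_contra hcon
        exact hx.2 ⟨by omega, by omega⟩
      refine (Finset.card_le_card hsub).trans ?_
      rw [Int.card_Ico]
      omega
    · have hsub : T ⊆ Finset.Ico ((M : ℤ) + a p) M := by
        intro x hx
        rw [hT, Finset.mem_filter, Finset.mem_Ico] at hx
        rw [Finset.mem_Ico]
        refine ⟨?_, hx.1.2⟩
        by_contra hcon
        exact hx.2 ⟨by omega, by omega⟩
      refine (Finset.card_le_card hsub).trans ?_
      rw [Int.card_Ico]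
      omega
  have hN : N - 1 + 1 = N := by
    have := p.pos
    omega
  have h3 : ((box N M).filter fun z => ¬ (0 ≤ z p - a p ∧ z p - a p < M)).card =
      T.card * M ^ (N - 1) := by
    rw [h1, Fintype.card_piFinset, ← Finset.mul_prod_erase _ _ (Finset.mem_univ p),
      Function.update_self]
    congr 1
    have h4 : ∀ i ∈ Finset.univ.erase p, (Function.update (fun _ => Finset.Ico (0 : ℤ) M) p T i).card = M := by
      intro i hi
      rw [Function.update_of_ne (Finset.ne_of_mem_erase hi)]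
      simp
    rw [Finset.prod_congr rfl h4, Finset.prod_const, Finset.card_erase_of_mem (Finset.mem_univ p),
      Finset.card_univ, Fintype.card_fin]
  rw [h3, Nat.cast_mul, Nat.cast_pow, mul_assoc, ← pow_succ, hN]
  refine mul_le_mul_of_nonneg_right ?_ (by positivity)
  have h5 : ((T.card : ℕ) : ℤ) ≤ |a p| := by
    rw [Int.abs_eq_natAbs]
    exact_mod_cast h2
  exact_mod_cast h5

theorem avg_shift {M : ℕ} (hM : 1 ≤ M) {P : (Fin N → ℤ) → G → ℝ} (h0 : ∀ z g, 0 ≤ P z g)
    (h1 : ∀ z (s : Finset G), ∑ g ∈ s, P z g ≤ 1) (a : Fin N → ℤ) :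
    Dist (avg M (fun z => P (z + a))) (avg M P) (2 * (∑ p, ((|a p| : ℤ) : ℝ)) / M) := by
  classical
  intro s
  have hMr : (0 : ℝ) < M := by exact_mod_cast hM
  have hM0 : (0 : ℝ) < (M : ℝ) ^ N := pow_pos hMr _
  set B := box N M with hB
  set Ba := B.map (Equiv.addRight a).toEmbedding with hBa
  have hsum : ∀ g, ∑ z ∈ B, P (z + a) g = ∑ z ∈ Ba, P z g := by
    intro g
    rw [hBa, Finset.sum_map]
    rfl
  have hcardeq : Ba.card = B.card := Finset.card_map _
  have hsd : (Ba \ B).card = (B \ Ba).card := Finset.card_sdiff_comm hcardeq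
  have hdiff : ∀ g, |avg M (fun z => P (z + a)) g - avg M P g| ≤
      (∑ z ∈ Ba \ B, P z g + ∑ z ∈ B \ Ba, P z g) / (M : ℝ) ^ N := by
    intro g
    have e1 : avg M (fun z => P (z + a)) g - avg M P g =
        (∑ z ∈ Ba \ B, P z g - ∑ z ∈ B \ Ba, P z g) / (M : ℝ) ^ N := by
      unfold avg
      rw [← hB, hsum, ← sub_div]
      congr 1
      have e2 := Finset.sum_inter_add_sum_sdiff Ba B (fun z => P z g)
      have e3 := Finset.sum_inter_add_sum_sdiff B Ba (fun z => P z g)
      rw [Finset.inter_comm] at e3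
      linarith
    rw [e1, abs_div, abs_of_pos hM0]
    refine div_le_div_of_nonneg_right ?_ hM0.le
    have p1 : 0 ≤ ∑ z ∈ Ba \ B, P z g := Finset.sum_nonneg fun z _ => h0 z g
    have p2 : 0 ≤ ∑ z ∈ B \ Ba, P z g := Finset.sum_nonneg fun z _ => h0 z g
    rw [abs_le]
    constructor <;> linarith
  have hslab : ((B \ Ba).card : ℝ) * M ≤ (∑ p, ((|a p| : ℤ) : ℝ)) * (M : ℝ) ^ N := by
    have hsub : B \ Ba ⊆ Finset.univ.biUnion fun p : Fin N =>
        B.filter fun z => ¬ (0 ≤ z p - a p ∧ z p - a p < M) := by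
      intro z hz
      rw [Finset.mem_sdiff] at hz
      rw [Finset.mem_biUnion]
      by_contra hcon
      push Not at hcon
      apply hz.2
      rw [hBa, Finset.mem_map]
      refine ⟨z - a, ?_, by simp⟩
      rw [hB, mem_box]
      intro p
      have h2 := hcon p (Finset.mem_univ p)
      rw [Finset.mem_filter] at h2
      push Not at h2
      exact h2 hz.1
    have h2 : ((B \ Ba).card : ℝ) ≤ ∑ p : Fin N,
        ((B.filter fun z => ¬ (0 ≤ z p - a p ∧ z p - a p < M)).card : ℝ) := by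
      exact_mod_cast (Finset.card_le_card hsub).trans Finset.card_biUnion_le
    calc ((B \ Ba).card : ℝ) * M ≤ (∑ p : Fin N,
        ((B.filter fun z => ¬ (0 ≤ z p - a p ∧ z p - a p < M)).card : ℝ)) * M :=
          mul_le_mul_of_nonneg_right h2 hMr.le
      _ = ∑ p : Fin N,
        ((B.filter fun z => ¬ (0 ≤ z p - a p ∧ z p - a p < M)).card : ℝ) * M := Finset.sum_mul _ _ _
      _ ≤ ∑ p : Fin N, ((|a p| : ℤ) : ℝ) * (M : ℝ) ^ N := Finset.sum_le_sum fun p _ => av_card_slab a p
      _ = _ := (Finset.sum_mul _ _ _).symm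
  calc ∑ t ∈ s, |avg M (fun z => P (z + a)) t - avg M P t|
      ≤ ∑ t ∈ s, (∑ z ∈ Ba \ B, P z t + ∑ z ∈ B \ Ba, P z t) / (M : ℝ) ^ N :=
        Finset.sum_le_sum fun t _ => hdiff t
    _ = (∑ z ∈ Ba \ B, ∑ t ∈ s, P z t + ∑ z ∈ B \ Ba, ∑ t ∈ s, P z t) / (M : ℝ) ^ N := by
        rw [← Finset.sum_div, Finset.sum_add_distrib, Finset.sum_comm, Finset.sum_comm (s := s)]
    _ ≤ (∑ _z ∈ Ba \ B, (1 : ℝ) + ∑ _z ∈ B \ Ba, (1 : ℝ)) / (M : ℝ) ^ N :=
        div_le_div_of_nonneg_right (add_le_add (Finset.sum_le_sum fun z _ => h1 z s)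
          (Finset.sum_le_sum fun z _ => h1 z s)) hM0.le
    _ = 2 * ((B \ Ba).card : ℝ) / (M : ℝ) ^ N := by
        rw [Finset.sum_const, Finset.sum_const, hsd, nsmul_eq_mul, mul_one]
        ring
    _ ≤ 2 * (∑ p, ((|a p| : ℤ) : ℝ)) / M := by
        rw [div_le_div_iff₀ hM0 hMr]
        linarith

end Pool.Agent.Helper35.AMn
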