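import Mathlib

/-!
# Right amenability in all dimensions (project NI/RK, MP_0f6f3f_an): basics

`hs X` is the square of the Hilbert-Schmidt (Frobenius) norm of a complex N x N matrix.
`Rep G iota`: a map `G -> M_N(C)` which is multiplicative up to scalars of modulus one, has
determinants of modulus one and is proper.
`Dist f g e`: the l1 distance of `f` and `g` is at most `e`.
-/

open Finset Matrix

namespace Pool.Agent.Helper35.AMn

abbrev Mn (N : ℕ) := Matrix (Fin N) (Fin N) ℂ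

variable {N : ℕ}

/-- The square of the Hilbert-Schmidt norm. -/
noncomputable def hs (X : Mn N) : ℝ := ∑ i, ∑ j, ‖X i j‖ ^ 2

/-- Multiplicative up to unimodular scalars, determinants of modulus one, proper. -/
structure Rep (G : Type*) [Group G] (ι : G → Mn N) : Prop where
  one : ι 1 = 1
  mul : ∀ g h, ∃ c : ℂ, ‖c‖ = 1 ∧ ι (g * h) = c • (ι g * ι h)
  det : ∀ g, ‖(ι g).det‖ = 1
  fin : ∀ R : ℝ, {g | hs (ι g) ≤ R}.Finite

/-- The l1 distance of `f` and `g` is at most `e`. -/
def Dist {G : Type*} (f g : G → ℝ) (e : ℝ) : Prop := ∀ s : Finset G, ∑ t ∈ s, |f t - g t| ≤ e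

/-- Unitary matrices. -/
def Un (k : Mn N) : Prop := star k * k = 1

section norm

attribute [local instance] Matrix.frobeniusNormedAddCommGroup Matrix.frobeniusNormedSpace
  Matrix.frobeniusNormedRing

theorem hs_eq_norm (X : Mn N) : hs X = ‖X‖ ^ 2 := by
  have h := Matrix.frobenius_norm_def X
  have h0 : (0 : ℝ) ≤ ∑ i, ∑ j, ‖X i j‖ ^ (2 : ℝ) :=
    Finset.sum_nonneg fun i _ => Finset.sum_nonneg fun j _ => Real.rpow_nonneg (norm_nonneg _) _
  rw [h, ← Real.sqrt_eq_rpow, Real.sq_sqrt h0]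
  simp only [hs, Real.rpow_two]

theorem sqrt_hs (X : Mn N) : Real.sqrt (hs X) = ‖X‖ := by
  rw [hs_eq_norm, Real.sqrt_sq (norm_nonneg X)]

theorem hs_nonneg (X : Mn N) : 0 ≤ hs X := by
  rw [hs_eq_norm]; positivity

theorem hs_pos {X : Mn N} (h : X ≠ 0) : 0 < hs X := by
  rw [hs_eq_norm]
  have := norm_pos_iff.mpr h
  positivity

theorem hs_mul_le (X Y : Mn N) : hs (X * Y) ≤ hs X * hs Y := by
  simp only [hs_eq_norm]
  have := Matrix.frobenius_norm_mul X Y
  calc ‖X * Y‖ ^ 2 ≤ (‖X‖ * ‖Y‖) ^ 2 := by gcongr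
    _ = ‖X‖ ^ 2 * ‖Y‖ ^ 2 := by ring

theorem hs_smul (c : ℂ) (X : Mn N) : hs (c • X) = ‖c‖ ^ 2 * hs X := by
  simp only [hs_eq_norm, norm_smul, mul_pow]

theorem sqrt_hs_add_le (X Y : Mn N) : Real.sqrt (hs (X + Y)) ≤ Real.sqrt (hs X) + Real.sqrt (hs Y) := by
  simp only [sqrt_hs]
  exact norm_add_le X Y

theorem sqrt_hs_sub_le (X Y : Mn N) : Real.sqrt (hs (X - Y)) ≤ Real.sqrt (hs X) + Real.sqrt (hs Y) := by
  simp only [sqrt_hs]
  exact norm_sub_le X Y

theorem sqrt_hs_mul_le (X Y : Mn N) : Real.sqrt (hs (X * Y)) ≤ Real.sqrt (hs X) * Real.sqrt (hs Y) := by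
  simp only [sqrt_hs]
  exact Matrix.frobenius_norm_mul X Y

end norm

theorem hs_entry (X : Mn N) (i j : Fin N) : ‖X i j‖ ^ 2 ≤ hs X := by
  unfold hs
  calc ‖X i j‖ ^ 2 ≤ ∑ j', ‖X i j'‖ ^ 2 :=
        Finset.single_le_sum (f := fun j' => ‖X i j'‖ ^ 2) (fun _ _ => by positivity) (Finset.mem_univ j)
    _ ≤ ∑ i', ∑ j', ‖X i' j'‖ ^ 2 :=
        Finset.single_le_sum (f := fun i' => ∑ j', ‖X i' j'‖ ^ 2) (fun _ _ => by positivity)
          (Finset.mem_univ i)

theorem norm_entry_le (X : Mn N) (i j : Fin N) : ‖X i j‖ ≤ Real.sqrt (hs X) :=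
  Real.le_sqrt_of_sq_le (hs_entry X i j)

theorem hs_le_of_entries {X : Mn N} {r : ℝ} (h : ∀ i j, ‖X i j‖ ≤ r) : hs X ≤ (N : ℝ) ^ 2 * r ^ 2 := by
  have h0 : ∀ i j, ‖X i j‖ ^ 2 ≤ r ^ 2 := fun i j => by
    have := h i j
    have := norm_nonneg (X i j)
    gcongr
  calc hs X ≤ ∑ i : Fin N, ∑ j : Fin N, r ^ 2 := by
        unfold hs
        exact Finset.sum_le_sum fun i _ => Finset.sum_le_sum fun j _ => h0 i j
    _ = (N : ℝ) ^ 2 * r ^ 2 := by
        simp only [Finset.sum_const, Finset.card_univ, Fintype.card_fin, nsmul_eq_mul]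
        ring

theorem hs_trace (X : Mn N) : ((hs X : ℝ) : ℂ) = (star X * X).trace := by
  unfold hs Matrix.trace
  simp only [Matrix.diag_apply, Matrix.mul_apply, Matrix.star_apply]
  push_cast
  rw [Finset.sum_comm]
  refine Finset.sum_congr rfl fun i _ => Finset.sum_congr rfl fun j _ => ?_
  rw [RCLike.star_def, RCLike.conj_mul]
  norm_cast

theorem hs_star (X : Mn N) : hs (star X) = hs X := by
  unfold hs
  simp only [Matrix.star_apply, norm_star]
  rw [Finset.sum_comm]

theorem Un.mul_star {k : Mn N} (hk : Un k) : k * star k = 1 := mul_eq_one_comm.mp hk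

theorem Un.adj {k : Mn N} (hk : Un k) : Un (star k) := by
  unfold Un
  rw [star_star]
  exact hk.mul_star

theorem Un.mul {k l : Mn N} (hk : Un k) (hl : Un l) : Un (k * l) := by
  unfold Un at *
  rw [star_mul]
  calc star l * star k * (k * l) = star l * (star k * k) * l := by simp only [mul_assoc]
    _ = 1 := by rw [hk, mul_one, hl]

theorem hs_un_left {k : Mn N} (hk : Un k) (X : Mn N) : hs (k * X) = hs X := by
  have h : ((hs (k * X) : ℝ) : ℂ) = ((hs X : ℝ) : ℂ) := by
    rw [hs_trace, hs_trace, star_mul]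
    congr 1
    calc star X * star k * (k * X) = star X * (star k * k) * X := by simp only [mul_assoc]
      _ = star X * X := by rw [hk, mul_one]
  exact_mod_cast h

theorem hs_un_right {k : Mn N} (hk : Un k) (X : Mn N) : hs (X * k) = hs X := by
  rw [← hs_star, star_mul, hs_un_left hk.adj, hs_star]

theorem Un.det {k : Mn N} (hk : Un k) : ‖k.det‖ = 1 := by
  have h : star k.det * k.det = 1 := by
    have := congrArg Matrix.det hk
    rw [Matrix.det_mul, Matrix.det_one, Matrix.star_eq_conjTranspose, Matrix.det_conjTranspose] at this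
    exact this
  have h2 : ‖k.det‖ * ‖k.det‖ = 1 := by
    have := congrArg norm h
    rwa [norm_mul, norm_star, norm_one] at this
  nlinarith [norm_nonneg k.det]

theorem Un.det_ne {k : Mn N} (hk : Un k) : k.det ≠ 0 := by
  intro h
  have := hk.det
  rw [h, norm_zero] at this
  exact zero_ne_one this

theorem hs_one : hs (1 : Mn N) = N := by
  unfold hs
  have h : ∀ i : Fin N, ∑ j, ‖(1 : Mn N) i j‖ ^ 2 = 1 := by
    intro i
    rw [Finset.sum_eq_single i]
    · rw [Matrix.one_apply_eq, norm_one, one_pow]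
    · intro j _ hj
      rw [Matrix.one_apply_ne hj.symm, norm_zero]
      norm_num
    · intro h
      exact absurd (Finset.mem_univ i) h
  rw [Finset.sum_congr rfl fun i _ => h i]
  simp

/-! ### the distance -/

theorem Dist.symm {G : Type*} {f g : G → ℝ} {e : ℝ} (h : Dist f g e) : Dist g f e := by
  intro s
  simpa only [abs_sub_comm] using h s

theorem Dist.trans {G : Type*} {f g k : G → ℝ} {a b : ℝ} (h : Dist f g a) (h' : Dist g k b) :
    Dist f k (a + b) := by
  intro s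
  calc ∑ t ∈ s, |f t - k t| ≤ ∑ t ∈ s, (|f t - g t| + |g t - k t|) :=
        Finset.sum_le_sum fun t _ => abs_sub_le _ _ _
    _ = ∑ t ∈ s, |f t - g t| + ∑ t ∈ s, |g t - k t| := Finset.sum_add_distrib
    _ ≤ a + b := add_le_add (h s) (h' s)

theorem Dist.mono {G : Type*} {f g : G → ℝ} {a b : ℝ} (h : Dist f g a) (hab : a ≤ b) :
    Dist f g b := fun s => (h s).trans hab

theorem Dist.comp {G H : Type*} {f g : G → ℝ} {a : ℝ} (h : Dist f g a) (e : H ≃ G) :
    Dist (fun x => f (e x)) (fun x => g (e x)) a := by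
  intro s
  have := h (s.map e.toEmbedding)
  simpa only [Finset.sum_map, Equiv.coe_toEmbedding] using this

theorem Dist.refl {G : Type*} (f : G → ℝ) : Dist f f 0 := by
  intro s
  simp

/-! ### representations -/

section rep

variable {G : Type*} [Group G] {ι : G → Mn N}

theorem Rep.det_ne (hι : Rep G ι) (g : G) : (ι g).det ≠ 0 := by
  intro h
  have := hι.det g
  rw [h, norm_zero] at this
  exact zero_ne_one this

theorem Rep.hs_mul (hι : Rep G ι) (g h : G) (X : Mn N) : hs (ι (g * h) * X) = hs (ι g * (ι h * X)) := by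
  obtain ⟨c, hc, h'⟩ := hι.mul g h
  rw [h', Matrix.smul_mul, hs_smul, hc, mul_assoc]
  ring

theorem Rep.hs_inv_mul (hι : Rep G ι) (g h : G) :
    hs (ι (g⁻¹ * h)) = hs ((ι g)⁻¹ * ι h) := by
  obtain ⟨c, hc, h'⟩ := hι.mul g (g⁻¹ * h)
  rw [mul_inv_cancel_left] at h'
  have hd : IsUnit (ι g).det := isUnit_iff_ne_zero.mpr (hι.det_ne g)
  have h2 : (ι g)⁻¹ * ι h = c • ι (g⁻¹ * h) := by
    rw [h', Matrix.mul_smul, ← mul_assoc, Matrix.nonsing_inv_mul _ hd, one_mul]
  rw [h2, hs_smul, hc]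
  ring

theorem Rep.hs_inv (hι : Rep G ι) (g : G) : hs (ι g⁻¹) = hs ((ι g)⁻¹) := by
  have := hι.hs_inv_mul g 1
  rwa [mul_one, hι.one, mul_one] at this

end rep

theorem ne_zero_of_det (hN : 0 < N) {X : Mn N} (h : X.det ≠ 0) : X ≠ 0 := by
  rintro rfl
  have : Nonempty (Fin N) := ⟨⟨0, hN⟩⟩
  exact h Matrix.det_zero

/-- adjugate bound -/
theorem hs_inv_le {X : Mn N} (h : ‖X.det‖ = 1) :
    hs X⁻¹ ≤ ((N : ℝ) * N.factorial) ^ 2 * (1 + hs X) ^ N := by
  set R := Real.sqrt (1 + hs X) with hR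
  have h0 := hs_nonneg X
  have hR0 : 0 ≤ R := Real.sqrt_nonneg _
  have hR2 : R ^ 2 = 1 + hs X := Real.sq_sqrt (by linarith)
  have hR1 : 1 ≤ R := by
    rw [hR]
    exact Real.one_le_sqrt.mpr (by linarith)
  have e : ∀ i j, ‖X⁻¹ i j‖ ≤ N.factorial * R ^ N := by
    intro i j
    rw [Matrix.inv_def, Matrix.smul_apply, norm_smul, Ring.inverse_eq_inv', norm_inv, h, inv_one, one_mul,
      Matrix.adjugate_apply]
    have hb : ∀ a b, ‖X.updateRow j (Pi.single i 1) a b‖ ≤ R := by
      intro a b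
      by_cases ha : a = j
      · subst ha
        rw [Matrix.updateRow_self]
        by_cases hb : b = i
        · subst hb
          rw [Pi.single_eq_same, norm_one]
          exact hR1
        · rw [Pi.single_eq_of_ne hb, norm_zero]
          exact hR0
      · rw [Matrix.updateRow_ne ha]
        exact (norm_entry_le X a b).trans (Real.sqrt_le_sqrt (by linarith))
    have h3 := Matrix.det_le (abv := NormedField.toAbsoluteValue ℂ) hb
    rw [Fintype.card_fin, nsmul_eq_mul] at h3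
    exact h3
  have h1 := hs_le_of_entries e
  have h2 : (N : ℝ) ^ 2 * (N.factorial * R ^ N) ^ 2 = ((N : ℝ) * N.factorial) ^ 2 * (1 + hs X) ^ N := by
    rw [← hR2]
    ring
  linarith

end Pool.Agent.Helper35.AMn
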