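import Pool.Agent.Helper35.AMn.Basic

/-!
# AMn-GR: polynomial growth in dimension N (project RK, MP_0f6f3f_an)

The case `N = 3` is proved in `Pool/Agent/Helper35/AM/Growth.lean` (265 lines): copy it and replace the constants.
PROOF IN WORDS. Put `A = (N * N!)^2 * 2^N + 1` (natural number) and for `r >= 1` the scale `S_r = 4 * N * A * r^N`.
`K = #{x : hs (iota x) <= (N+1)^2}` (finite by `Rep.fin`). Cells: `floor (S_r * Re (iota g)_ij)`, `floor (S_r * Im (iota g)_ij)`.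
(1) If `hs (iota g), hs (iota g') <= r` and `g, g'` have the same cell then `hs (iota (g^-1 g')) <= (N+1)^2`: as for `N = 3`,
`hs (iota g)^-1 <= (N N!)^2 (1 + r)^N <= (N N!)^2 (2 r)^N <= (A r^N)^2` (`hs_inv_le`), entries of the difference `<= 2/S_r`, so
`sqrt (hs (iota g' - iota g)) <= N * 2/S_r`, product `<= A r^N * N * 2/S_r = 1/2`, `sqrt (hs 1) = sqrt N <= N` (`hs_one`).
(2) `#s <= K * (5 * S_r * r)^(2 N^2)` for every finite set `s` of elements with `hs (iota g) <= r`.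
(3) `hs (iota g) >= 1/A` for all `g` if `N > 0`: `N = hs 1 <= hs X * hs X^-1 <= hs X * (N N!)^2 (1 + hs X)^N`, so if `hs X < 1` then
`hs X >= N / ((N N!)^2 2^N) >= 1/A`. With `L = (N+1) * 2 N^2 + 2` the sum of `hs^-L` is at most a constant times `sum_r r^-2`.
(For `N = 0` everything is trivial: `hs = 0`, so `0⁻¹ = 0` and `G` is finite; the hypothesis `0 < N` excludes it.)
-/

open Finset Matrix

namespace Pool.Agent.Helper35.AMn

variable {N : ℕ} {G : Type*} [Group G] {ι : G → Mn N}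

/-- the constant `A` -/
def bigA (N : ℕ) : ℕ := (N * N.factorial) ^ 2 * 2 ^ N + 1

lemma one_le_bigA (N : ℕ) : 1 ≤ bigA N := by
  unfold bigA
  omega

lemma bigA_cast (N : ℕ) : ((bigA N : ℕ) : ℝ) = ((N : ℝ) * N.factorial) ^ 2 * 2 ^ N + 1 := by
  unfold bigA
  push_cast
  ring

/-- the scale -/
def scale (N r : ℕ) : ℕ := 4 * N * bigA N * r ^ N

lemma one_le_scale (hN : 0 < N) {r : ℕ} (hr : 1 ≤ r) : 1 ≤ scale N r := by
  unfold scale
  have h1 := one_le_bigA N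
  have h2 : 1 ≤ r ^ N := Nat.one_le_pow _ _ hr
  have h3 : 1 ≤ 4 * N := by omega
  exact Nat.one_le_iff_ne_zero.2 (by positivity)

lemma inv_le_bigA {X : Mn N} (h : ‖X.det‖ = 1) {r : ℝ} (hr : 1 ≤ r) (hX : hs X ≤ r) :
    hs X⁻¹ ≤ bigA N * r ^ N := by
  have h0 := hs_nonneg X
  refine (hs_inv_le h).trans ?_
  have h1 : (1 + hs X) ^ N ≤ (2 * r) ^ N := pow_le_pow_left₀ (by linarith) (by linarith) N
  have h2 : (0 : ℝ) ≤ ((N : ℝ) * N.factorial) ^ 2 := by positivity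
  have h3 : (1 : ℝ) ≤ r ^ N := one_le_pow₀ hr
  calc ((N : ℝ) * N.factorial) ^ 2 * (1 + hs X) ^ N ≤
      ((N : ℝ) * N.factorial) ^ 2 * (2 * r) ^ N := mul_le_mul_of_nonneg_left h1 h2
    _ = ((N : ℝ) * N.factorial) ^ 2 * 2 ^ N * r ^ N := by rw [mul_pow]; ring
    _ ≤ bigA N * r ^ N := by
      rw [bigA_cast]
      exact mul_le_mul_of_nonneg_right (by linarith) (by linarith)

theorem hs_lower (hN : 0 < N) {X : Mn N} (h : ‖X.det‖ = 1) : 1 / (bigA N : ℝ) ≤ hs X := by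
  have hA : (1 : ℝ) ≤ bigA N := by exact_mod_cast one_le_bigA N
  by_contra hcon
  rw [not_le] at hcon
  have hd : IsUnit X.det := by
    rw [isUnit_iff_ne_zero]
    intro h0
    rw [h0, norm_zero] at h
    exact zero_ne_one h
  have h1 := hs_mul_le X X⁻¹
  rw [Matrix.mul_nonsing_inv _ hd, hs_one] at h1
  have h3 := hs_nonneg X
  have h5 : 1 / (bigA N : ℝ) ≤ 1 := by
    rw [div_le_one (by linarith)]
    exact hA
  have h2 := inv_le_bigA h (r := 1) le_rfl (hcon.le.trans h5)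
  rw [one_pow, mul_one] at h2
  have hN1 : (1 : ℝ) ≤ N := by exact_mod_cast hN
  have h4 : hs X * hs X⁻¹ ≤ hs X * bigA N := mul_le_mul_of_nonneg_left h2 h3
  have h6 : hs X * bigA N < 1 := by
    rw [lt_div_iff₀ (by linarith)] at hcon
    exact hcon
  linarith

/-- the cell of `g` -/
noncomputable def cell (ι : G → Mn N) (S : ℕ) (g : G) (x : Fin N × Fin N × Bool) : ℤ :=
  ⌊(S : ℝ) * (if x.2.2 then (ι g x.1 x.2.1).re else (ι g x.1 x.2.1).im)⌋

private lemma floor_close {a b : ℝ} (h : ⌊a⌋ = ⌊b⌋) : |a - b| ≤ 1 := by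
  have h1 := Int.floor_le a
  have h2 := Int.lt_floor_add_one a
  have h3 := Int.floor_le b
  have h4 := Int.lt_floor_add_one b
  rw [h] at h1 h2
  rw [abs_le]
  constructor <;> linarith

lemma close_of_cell {S : ℕ} (hS : 1 ≤ S) {g g' : G} (h : cell ι S g = cell ι S g') :
    Real.sqrt (hs (ι g' - ι g)) ≤ N * (2 / S) := by
  have hr0 : (0 : ℝ) < S := by exact_mod_cast hS
  have h1 : ∀ i j, ‖(ι g' - ι g) i j‖ ≤ 2 / S := by
    intro i j
    have e1 := floor_close (congrFun h (i, j, true)).symm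
    have e2 := floor_close (congrFun h (i, j, false)).symm
    simp only [if_true, Bool.false_eq_true, if_false] at e1 e2
    have e3 : |((ι g' - ι g) i j).re| ≤ 1 / S := by
      rw [Matrix.sub_apply, Complex.sub_re, le_div_iff₀ (by positivity)]
      have : |(ι g' i j).re - (ι g i j).re| * (S : ℝ) =
          |(S : ℝ) * (ι g' i j).re - (S : ℝ) * (ι g i j).re| := by
        rw [← mul_sub, abs_mul, abs_of_pos hr0]
        ring
      rw [this]
      exact e1
    have e4 : |((ι g' - ι g) i j).im| ≤ 1 / S := by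
      rw [Matrix.sub_apply, Complex.sub_im, le_div_iff₀ (by positivity)]
      have : |(ι g' i j).im - (ι g i j).im| * (S : ℝ) =
          |(S : ℝ) * (ι g' i j).im - (S : ℝ) * (ι g i j).im| := by
        rw [← mul_sub, abs_mul, abs_of_pos hr0]
        ring
      rw [this]
      exact e2
    calc ‖(ι g' - ι g) i j‖ ≤ |((ι g' - ι g) i j).re| + |((ι g' - ι g) i j).im| :=
          Complex.norm_le_abs_re_add_abs_im _
      _ ≤ 1 / S + 1 / S := add_le_add e3 e4
      _ = 2 / S := by ring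
  have h2 := hs_le_of_entries h1
  rw [Real.sqrt_le_left (by positivity)]
  refine h2.trans (le_of_eq ?_)
  ring

lemma close_inv (hN : 0 < N) {r : ℕ} (hr : 1 ≤ r) (hι : Rep G ι) {g g' : G} (hg : hs (ι g) ≤ r)
    (h : cell ι (scale N r) g = cell ι (scale N r) g') :
    hs (ι (g⁻¹ * g')) ≤ ((N : ℝ) + 1) ^ 2 := by
  have hr1 : (1 : ℝ) ≤ r := by exact_mod_cast hr
  have hN1 : (1 : ℝ) ≤ N := by exact_mod_cast hN
  have hA : (1 : ℝ) ≤ bigA N := by exact_mod_cast one_le_bigA N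
  have hrN : (1 : ℝ) ≤ (r : ℝ) ^ N := one_le_pow₀ hr1
  have hd : IsUnit (ι g).det := isUnit_iff_ne_zero.mpr (hι.det_ne g)
  rw [hι.hs_inv_mul]
  have e : (ι g)⁻¹ * ι g' = 1 + (ι g)⁻¹ * (ι g' - ι g) := by
    rw [mul_sub, Matrix.nonsing_inv_mul _ hd]
    abel
  have hT : 1 ≤ (bigA N : ℝ) * (r : ℝ) ^ N := by
    nlinarith
  have h1 : Real.sqrt (hs (ι g)⁻¹) ≤ bigA N * (r : ℝ) ^ N := by
    rw [Real.sqrt_le_left (by positivity)]
    calc hs (ι g)⁻¹ ≤ bigA N * (r : ℝ) ^ N := inv_le_bigA (hι.det g) hr1 hg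
      _ ≤ (bigA N * (r : ℝ) ^ N) ^ 2 := by
        nlinarith
  have h2 := close_of_cell (ι := ι) (one_le_scale hN hr) h
  have h3 : Real.sqrt (hs ((ι g)⁻¹ * (ι g' - ι g))) ≤
      bigA N * (r : ℝ) ^ N * (N * (2 / (scale N r : ℕ))) :=
    (sqrt_hs_mul_le _ _).trans (mul_le_mul h1 h2 (Real.sqrt_nonneg _) (by positivity))
  have h4 : (bigA N : ℝ) * (r : ℝ) ^ N * (N * (2 / (scale N r : ℕ))) = 1 / 2 := by
    unfold scale
    push_cast
    have hA0 : (bigA N : ℝ) ≠ 0 := by positivity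
    have hN0 : (N : ℝ) ≠ 0 := by positivity
    have hr0 : (r : ℝ) ^ N ≠ 0 := by positivity
    field_simp
    norm_num
  have h5 := sqrt_hs_add_le 1 ((ι g)⁻¹ * (ι g' - ι g))
  rw [← e, hs_one] at h5
  have h6 : Real.sqrt N ≤ N := by
    rw [Real.sqrt_le_left (by positivity)]
    nlinarith
  have h7 : Real.sqrt (hs ((ι g)⁻¹ * ι g')) ≤ N + 1 := by linarith
  rw [Real.sqrt_le_left (by positivity)] at h7
  exact h7

lemma cell_mem {S r : ℕ} (hr : 1 ≤ r) {g : G} (hg : hs (ι g) ≤ r) (x : Fin N × Fin N × Bool) :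
    cell ι S g x ∈ Finset.Icc (-((S : ℤ) * r + 1)) ((S : ℤ) * r + 1) := by
  have hr0 : (1 : ℝ) ≤ r := by exact_mod_cast hr
  have hS : (0 : ℝ) ≤ S := Nat.cast_nonneg _
  have h1 : ‖ι g x.1 x.2.1‖ ≤ r := by
    have h2 := hs_entry (ι g) x.1 x.2.1
    by_contra hcon
    rw [not_le] at hcon
    nlinarith
  have h2 : |(if x.2.2 then (ι g x.1 x.2.1).re else (ι g x.1 x.2.1).im)| ≤ (r : ℝ) := by
    split_ifs
    · exact (Complex.abs_re_le_norm _).trans h1
    · exact (Complex.abs_im_le_norm _).trans h1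
  unfold cell
  set y : ℝ := (if x.2.2 then (ι g x.1 x.2.1).re else (ι g x.1 x.2.1).im) with hy
  have h3 := abs_le.1 h2
  have h6 : (S : ℝ) * y ≤ S * r := mul_le_mul_of_nonneg_left h3.2 hS
  have h7 : -((S : ℝ) * r) ≤ S * y := by
    have := mul_le_mul_of_nonneg_left h3.1 hS
    linarith
  rw [Finset.mem_Icc]
  constructor
  · rw [Int.le_floor]
    push_cast
    linarith
  · have h4 : (⌊(S : ℝ) * y⌋ : ℝ) ≤ (S : ℝ) * y := Int.floor_le _
    have h5 : ((⌊(S : ℝ) * y⌋ : ℤ) : ℝ) ≤ (((S : ℤ) * r + 1 : ℤ) : ℝ) := by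
      push_cast
      linarith
    exact_mod_cast h5

lemma card_ball (hN : 0 < N) (hι : Rep G ι) : ∃ K : ℕ, ∀ r : ℕ, 1 ≤ r → ∀ s : Finset G,
    (∀ g ∈ s, hs (ι g) ≤ r) → s.card ≤ K * (20 * N * bigA N * r ^ (N + 1)) ^ (2 * N ^ 2) := by
  classical
  have hfin := hι.fin (((N : ℝ) + 1) ^ 2)
  refine ⟨hfin.toFinset.card, fun r hr s hs' => ?_⟩
  have h1 := Finset.card_le_mul_card_image (f := cell ι (scale N r)) s hfin.toFinset.card (by
    intro v hv
    rw [Finset.mem_image] at hv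
    obtain ⟨g₀, hg₀, rfl⟩ := hv
    refine Finset.card_le_card_of_injOn (fun g => g₀⁻¹ * g) ?_ ?_
    · intro g hg
      rw [Finset.mem_coe, Finset.mem_filter] at hg
      rw [Finset.mem_coe, Set.Finite.mem_toFinset]
      exact close_inv hN hr hι (hs' g₀ hg₀) hg.2.symm
    · intro g _ g' _ h
      exact mul_left_cancel h)
  refine h1.trans (Nat.mul_le_mul_left _ ?_)
  have h2 : s.image (cell ι (scale N r)) ⊆ Fintype.piFinset (fun _ : Fin N × Fin N × Bool =>
      Finset.Icc (-((scale N r : ℤ) * r + 1)) ((scale N r : ℤ) * r + 1)) := by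
    intro v hv
    rw [Finset.mem_image] at hv
    obtain ⟨g, hg, rfl⟩ := hv
    rw [Fintype.mem_piFinset]
    exact fun x => cell_mem hr (hs' g hg) x
  refine (Finset.card_le_card h2).trans ?_
  have h3 : Fintype.card (Fin N × Fin N × Bool) = 2 * N ^ 2 := by
    simp only [Fintype.card_prod, Fintype.card_fin, Fintype.card_bool]
    ring
  rw [Fintype.card_piFinset, Finset.prod_const, Finset.card_univ, h3]
  refine Nat.pow_le_pow_left ?_ _
  rw [Int.card_Icc]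
  have h4 : 1 ≤ scale N r * r := Nat.one_le_iff_ne_zero.2
    (Nat.mul_ne_zero (Nat.one_le_iff_ne_zero.1 (one_le_scale hN hr)) (by omega))
  have h5 : (((scale N r : ℤ) * r + 1) + 1 - -((scale N r : ℤ) * r + 1)) =
      ((2 * (scale N r * r) + 3 : ℕ) : ℤ) := by
    push_cast
    ring
  rw [h5, Int.toNat_natCast]
  have h6 : scale N r * r = 4 * N * bigA N * r ^ (N + 1) := by
    unfold scale
    ring
  have h7 : 20 * N * bigA N * r ^ (N + 1) = 5 * (scale N r * r) := by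
    rw [h6]
    ring
  rw [h7]
  omega

theorem growth (hN : 0 < N) (hι : Rep G ι) : ∃ L : ℕ, Summable (fun g : G => ((hs (ι g))⁻¹) ^ L) := by
  classical
  obtain ⟨K, hK⟩ := card_ball hN hι
  have hA : (1 : ℝ) ≤ bigA N := by exact_mod_cast one_le_bigA N
  obtain ⟨L, hL⟩ : ∃ L : ℕ, L = (N + 1) * (2 * N ^ 2) + 2 := ⟨_, rfl⟩
  refine ⟨L, ?_⟩
  have hsum : Summable (fun j : ℕ => 1 / (j : ℝ) ^ 2) :=
    Real.summable_one_div_nat_pow.2 (by norm_num)
  set B : ℝ := bigA N + 1 with hB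
  have hB0 : 0 < B := by linarith
  set C : ℝ := K * (20 * N * bigA N) ^ (2 * N ^ 2) * B ^ L with hC
  have hC0 : 0 ≤ C := by positivity
  let ρ : G → ℕ := fun g => ⌈hs (ι g)⌉₊
  have hlow : ∀ g, 1 / (bigA N : ℝ) ≤ hs (ι g) := fun g => hs_lower hN (hι.det g)
  have hpos : ∀ g, 0 < hs (ι g) := fun g =>
    lt_of_lt_of_le (by positivity) (hlow g)
  have hρ1 : ∀ g, 1 ≤ ρ g := fun g => Nat.one_le_ceil_iff.2 (hpos g)
  have hρ2 : ∀ g, hs (ι g) ≤ ρ g := fun g => Nat.le_ceil _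
  have hρ3 : ∀ g, (ρ g : ℝ) ≤ B * hs (ι g) := fun g => by
    have h1 := hlow g
    have hp := hpos g
    rw [div_le_iff₀ (by linarith)] at h1
    rcases le_or_gt (hs (ι g)) 1 with h | h
    · have : ρ g ≤ 1 := Nat.ceil_le.2 (by exact_mod_cast h)
      have h2 : (ρ g : ℝ) ≤ 1 := by exact_mod_cast this
      rw [hB]
      linarith
    · have := Nat.ceil_lt_add_one (hs_nonneg (ι g))
      have h2 : (ρ g : ℝ) < hs (ι g) + 1 := this
      rw [hB]
      nlinarith
  refine summable_of_sum_le (c := C * ∑' j : ℕ, 1 / (j : ℝ) ^ 2) (fun g => ?_) (fun s => ?_)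
  · have := hs_nonneg (ι g)
    show (0 : ℝ) ≤ ((hs (ι g))⁻¹) ^ L
    positivity
  · have h1 : ∀ j ∈ s.image ρ, ∑ g ∈ s with ρ g = j, ((hs (ι g))⁻¹) ^ L ≤
        C * (1 / (j : ℝ) ^ 2) := by
      intro j hj
      rw [Finset.mem_image] at hj
      obtain ⟨g₀, _, rfl⟩ := hj
      set j := ρ g₀ with hj'
      have hj1 : 1 ≤ j := hρ1 g₀
      have hj0 : (0 : ℝ) < j := by exact_mod_cast hj1
      have h2 : ∑ g ∈ s with ρ g = j, ((hs (ι g))⁻¹) ^ L ≤
          ∑ g ∈ s with ρ g = j, (B / (j : ℝ)) ^ L := by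
        refine Finset.sum_le_sum (fun g hg => ?_)
        have hg' := (Finset.mem_filter.1 hg).2
        have h3 := hρ3 g
        rw [hg'] at h3
        have h5 := hpos g
        refine pow_le_pow_left₀ (by positivity) ?_ L
        rw [inv_eq_one_div, div_le_div_iff₀ h5 hj0]
        linarith
      have h3 : ({g ∈ s | ρ g = j}.card : ℝ) ≤
          ((K * (20 * N * bigA N * j ^ (N + 1)) ^ (2 * N ^ 2) : ℕ) : ℝ) := by
        refine Nat.cast_le.2 (hK j hj1 _ (fun g hg => ?_))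
        have hg' := (Finset.mem_filter.1 hg).2
        rw [← hg']
        exact hρ2 g
      calc ∑ g ∈ s with ρ g = j, ((hs (ι g))⁻¹) ^ L ≤
          ∑ g ∈ s with ρ g = j, (B / (j : ℝ)) ^ L := h2
        _ = ({g ∈ s | ρ g = j}.card : ℝ) * (B / (j : ℝ)) ^ L := by
          rw [Finset.sum_const, nsmul_eq_mul]
        _ ≤ ((K * (20 * N * bigA N * j ^ (N + 1)) ^ (2 * N ^ 2) : ℕ) : ℝ) * (B / (j : ℝ)) ^ L :=
          mul_le_mul_of_nonneg_right h3 (by positivity)
        _ = C * (1 / (j : ℝ) ^ 2) := by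
          rw [hC]
          push_cast
          rw [div_pow, mul_pow _ ((j : ℝ) ^ (N + 1)), ← pow_mul]
          have e1 : (j : ℝ) ^ ((N + 1) * (2 * N ^ 2)) / (j : ℝ) ^ L = 1 / (j : ℝ) ^ 2 := by
            rw [div_eq_div_iff (by positivity) (by positivity), one_mul, ← pow_add, hL]
          calc (K : ℝ) * ((20 * N * bigA N) ^ (2 * N ^ 2) * (j : ℝ) ^ ((N + 1) * (2 * N ^ 2))) *
                (B ^ L / (j : ℝ) ^ L) =
              K * (20 * N * bigA N) ^ (2 * N ^ 2) * B ^ L *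
                ((j : ℝ) ^ ((N + 1) * (2 * N ^ 2)) / (j : ℝ) ^ L) := by ring
            _ = _ := by rw [e1]
    calc ∑ g ∈ s, ((hs (ι g))⁻¹) ^ L =
        ∑ j ∈ s.image ρ, ∑ g ∈ s with ρ g = j, ((hs (ι g))⁻¹) ^ L :=
          (Finset.sum_fiberwise_of_maps_to (fun g hg => Finset.mem_image_of_mem ρ hg) _).symm
      _ ≤ ∑ j ∈ s.image ρ, C * (1 / (j : ℝ) ^ 2) := Finset.sum_le_sum h1
      _ = C * ∑ j ∈ s.image ρ, 1 / (j : ℝ) ^ 2 := by rw [Finset.mul_sum]
      _ ≤ C * ∑' j : ℕ, 1 / (j : ℝ) ^ 2 :=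
          mul_le_mul_of_nonneg_left (hsum.sum_le_tsum _ (fun j _ => by positivity)) hC0

end Pool.Agent.Helper35.AMn
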