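import Pool.Agent.Helper35.AMn.Basic

/-!
# AMn-M: an almost triangular N x N matrix shifts the boxes (project RK, MP_0f6f3f_an)

The case `N = 3` is proved in `Pool/Agent/Helper35/AM/Shift.lean` (358 lines, other normalisation): use its parts.
`D n T z = diag (exp (2 n (N - p) + z_p / T))_p` for `z : Fin N -> Z`.

PROOF IN WORDS (`shift_exists`). `|m_pq| <= sqrt H <= H`. In `det m = sum_sigma sign sigma prod_i m_(sigma i) i` (`Matrix.det_apply`) every
`sigma != 1` has an `i` with `i < sigma i` (otherwise `sigma i <= i` for all `i`, and the sums over `i` agree, so `sigma = 1`), so its term is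
at most `d H^N` (`d <= 1 <= H`): `1 <= prod |m_pp| + N! d H^N`, and for `d <= 1/(2 N! H^N)`: `prod |m_pp| >= 1/2`, so
`1/(2 H^N) <= |m_pp| <= H`. Put `a_p = round (T log |m_pp|)`, so `|log |m_pp| - a_p/T| <= 1/(2T)`, `|a_p| <= T * Lam <= A` where
`Lam = log (2 H^N) + 1`. Put `v_pq = m_pq exp (x_q - x'_p)` with `x_q = 2 n (N - q) + z_q/T`, `x'_p = 2 n (N - p) + (z_p + a_p)/T`;
then `m D(z) = D(z+a) v`. `d0 = diag (m_pp/|m_pp|)`.
Diagonal: `v_pp = (m_pp/|m_pp|) exp (log |m_pp| - a_p/T)`, so `|v_pp - d0_pp| <= 1/T` (`Real.abs_exp_sub_one_le`).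
`p < q`: `x_q - x'_p <= -2 n (q - p) + n + Lam <= Lam - n` (as `0 <= z/T <= n`), `|v_pq| <= H exp (Lam - n)`.
`q < p`: `x_q - x'_p <= 2 n N + n + Lam`, `|v_pq| <= d exp (2 n N + n + Lam)`.
Choose `T` with `1/T <= e/(N+1)`, `A`, `n0` with `H exp (Lam - n0) <= e/(N+1)`, then `d`. `hs (v - d0) <= N^2 (e/(N+1))^2 <= e^2`
(`hs_le_of_entries`).
-/

open Finset Matrix

namespace Pool.Agent.Helper35.AMn

variable {N : ℕ}

/-- The diagonal matrices of the boxes. -/
noncomputable def D (N n T : ℕ) (z : Fin N → ℤ) : Mn N :=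
  Matrix.diagonal (fun p => ((Real.exp (2 * n * ((N : ℝ) - (p : ℕ)) + z p / T) : ℝ) : ℂ))

private lemma exists_lt_perm (σ : Equiv.Perm (Fin N)) (hσ : σ ≠ 1) : ∃ i, i < σ i := by
  by_contra hcon
  push Not at hcon
  apply hσ
  have h1 : ∑ i, ((σ i : Fin N) : ℕ) = ∑ i : Fin N, (i : ℕ) :=
    Equiv.sum_comp σ fun i : Fin N => (i : ℕ)
  have h2 := (Finset.sum_eq_sum_iff_of_le (s := Finset.univ)
    (f := fun i : Fin N => ((σ i : Fin N) : ℕ)) (g := fun i : Fin N => (i : ℕ))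
    (fun i _ => hcon i)).1 h1
  ext i
  exact h2 i (Finset.mem_univ i)

private lemma diag_lowerN {H d : ℝ} {m : Mn N} (hH : 1 ≤ H) (hd : 0 ≤ d)
    (hd' : d * (2 * N.factorial * H ^ N) ≤ 1)
    (hdet : ‖m.det‖ = 1) (hm : ∀ i j, ‖m i j‖ ≤ H) (hl : ∀ i j : Fin N, j < i → ‖m i j‖ ≤ d)
    (p : Fin N) : 1 ≤ 2 * H ^ N * ‖m p p‖ := by
  classical
  have hH0 : 0 ≤ H := by linarith
  have key : 1 ≤ ∏ i, ‖m i i‖ + ∑ σ ∈ (Finset.univ : Finset (Equiv.Perm (Fin N))).erase 1,
      ∏ i, ‖m (σ i) i‖ := by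
    rw [← hdet, Matrix.det_apply]
    refine (norm_sum_le _ _).trans (le_of_eq ?_)
    rw [← Finset.add_sum_erase _ _ (Finset.mem_univ (1 : Equiv.Perm (Fin N)))]
    congr 1
    · simp [norm_prod]
    · refine Finset.sum_congr rfl fun σ _ => ?_
      rw [← norm_prod]
      rcases Int.units_eq_one_or (Equiv.Perm.sign σ) with h | h
      · rw [h, one_smul]
      · rw [h, Units.neg_smul, one_smul, norm_neg]
  have hterm : ∀ σ ∈ (Finset.univ : Finset (Equiv.Perm (Fin N))).erase 1,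
      ∏ i, ‖m (σ i) i‖ ≤ d * H ^ N := by
    intro σ hσ
    obtain ⟨i, hi⟩ := exists_lt_perm σ (Finset.ne_of_mem_erase hσ)
    rw [← Finset.mul_prod_erase _ _ (Finset.mem_univ i)]
    refine mul_le_mul (hl _ _ hi) ?_ (Finset.prod_nonneg fun _ _ => norm_nonneg _) hd
    calc ∏ j ∈ Finset.univ.erase i, ‖m (σ j) j‖ ≤ ∏ j ∈ Finset.univ.erase i, H :=
          Finset.prod_le_prod (fun _ _ => norm_nonneg _) fun j _ => hm _ _
      _ = H ^ (Finset.univ.erase i).card := by rw [Finset.prod_const]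
      _ ≤ H ^ N := by
        refine pow_le_pow_right₀ hH ?_
        exact (Finset.card_le_univ _).trans (Fintype.card_fin N).le
  have hsum := Finset.sum_le_sum hterm
  rw [Finset.sum_const, nsmul_eq_mul] at hsum
  have hcard : (((Finset.univ : Finset (Equiv.Perm (Fin N))).erase 1).card : ℝ) ≤
      N.factorial := by
    have h1 : ((Finset.univ : Finset (Equiv.Perm (Fin N))).erase 1).card ≤ N.factorial := by
      refine (Finset.card_le_univ _).trans (le_of_eq ?_)
      rw [Fintype.card_perm, Fintype.card_fin]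
    exact_mod_cast h1
  have hsum2 : (((Finset.univ : Finset (Equiv.Perm (Fin N))).erase 1).card : ℝ) * (d * H ^ N) ≤
      N.factorial * (d * H ^ N) := mul_le_mul_of_nonneg_right hcard (by positivity)
  have hP : 1 / 2 ≤ ∏ i, ‖m i i‖ := by
    have e1 : (N.factorial : ℝ) * (d * H ^ N) = d * (2 * N.factorial * H ^ N) / 2 := by ring
    linarith
  have hfin : ∏ i, ‖m i i‖ ≤ H ^ N * ‖m p p‖ := by
    rw [← Finset.mul_prod_erase _ _ (Finset.mem_univ p), mul_comm]
    refine mul_le_mul_of_nonneg_right ?_ (norm_nonneg _)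
    calc ∏ j ∈ Finset.univ.erase p, ‖m j j‖ ≤ ∏ j ∈ Finset.univ.erase p, H :=
          Finset.prod_le_prod (fun _ _ => norm_nonneg _) fun j _ => hm _ _
      _ = H ^ (Finset.univ.erase p).card := by rw [Finset.prod_const]
      _ ≤ H ^ N := by
        refine pow_le_pow_right₀ hH ?_
        exact (Finset.card_le_univ _).trans (Fintype.card_fin N).le
  linarith

/-- exponents of the boxes -/
private noncomputable def xe (N n T : ℕ) (z : Fin N → ℤ) (p : Fin N) : ℝ :=
  2 * n * ((N : ℝ) - (p : ℕ)) + z p / T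

private lemma D_eq (N n T : ℕ) (z : Fin N → ℤ) :
    D N n T z = Matrix.diagonal (fun p => ((Real.exp (xe N n T z p) : ℝ) : ℂ)) := rfl

theorem shift_exists (N : ℕ) (H e : ℝ) (hH : 1 ≤ H) (he : 0 < e) :
    ∃ T : ℕ, 1 ≤ T ∧ ∃ A n0 : ℕ, ∀ n : ℕ, n0 ≤ n → ∃ d : ℝ, 0 < d ∧ ∀ m : Mn N, ‖m.det‖ = 1 →
      hs m ≤ H → (∀ i j : Fin N, j < i → ‖m i j‖ ≤ d) →
      ∃ a : Fin N → ℤ, (∀ p, |a p| ≤ A) ∧ ∀ z : Fin N → ℤ, (∀ p, 0 ≤ z p ∧ z p < n * T) →
        ∃ (v d0 : Mn N), Un d0 ∧ hs (v - d0) ≤ e ^ 2 ∧ m * D N n T z = D N n T (z + a) * v := by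
  set E : ℝ := e / (N + 1) with hE
  have hN0 : (0 : ℝ) ≤ N := Nat.cast_nonneg N
  have hE0 : 0 < E := by positivity
  obtain ⟨T, hT⟩ := exists_nat_ge (1 / E + 1)
  have hTpos : (0 : ℝ) < T := by
    have : 0 < 1 / E := by positivity
    linarith
  have hT1 : 1 ≤ T := by
    have : 0 < T := by exact_mod_cast hTpos
    omega
  have hTe : 1 / (T : ℝ) ≤ E := by
    rw [div_le_iff₀ hTpos]
    have h1 : 1 / E ≤ T := by linarith
    rw [div_le_iff₀ hE0] at h1
    linarith
  set Λ : ℝ := Real.log (2 * H ^ (N + 1)) + 1 with hΛ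
  have hH3 : 1 ≤ H ^ (N + 1) := one_le_pow₀ hH
  have hlog0 : 0 ≤ Real.log (2 * H ^ (N + 1)) := Real.log_nonneg (by linarith)
  have hΛ0 : 0 ≤ Λ := by linarith
  obtain ⟨A, hA⟩ := exists_nat_ge (T * Λ)
  obtain ⟨n0, hn0⟩ := exists_nat_ge (H * Real.exp Λ / E)
  refine ⟨T, hT1, A, n0, fun n hn => ?_⟩
  have hup : H * Real.exp (Λ - n) ≤ E := by
    have h1 : (n0 : ℝ) ≤ n := by exact_mod_cast hn
    have h2 : (n : ℝ) ≤ Real.exp n := by
      have := Real.add_one_le_exp (n : ℝ)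
      linarith
    have h3 : H * Real.exp Λ / E ≤ Real.exp n := by linarith
    rw [div_le_iff₀ hE0] at h3
    rw [Real.exp_sub, ← mul_div_assoc, div_le_iff₀ (Real.exp_pos _)]
    linarith
  have hH0 : (0 : ℝ) < H := by linarith
  have hfac : (0 : ℝ) < N.factorial := by exact_mod_cast Nat.factorial_pos N
  set d : ℝ := min (1 / (2 * N.factorial * H ^ N)) (E / Real.exp (2 * n * N + n + Λ)) with hd
  have hd0 : 0 < d := lt_min (by positivity) (by positivity)
  have hd1 : d * (2 * N.factorial * H ^ N) ≤ 1 := by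
    have h1 : d ≤ 1 / (2 * N.factorial * H ^ N) := min_le_left _ _
    rwa [le_div_iff₀ (by positivity)] at h1
  have hd2 : d * Real.exp (2 * n * N + n + Λ) ≤ E := by
    have h1 : d ≤ E / Real.exp (2 * n * N + n + Λ) := min_le_right _ _
    rwa [le_div_iff₀ (by positivity)] at h1
  refine ⟨d, hd0, fun m hdet hm hl => ?_⟩
  have hmH : ∀ i j, ‖m i j‖ ≤ H := by
    intro i j
    have h1 := hs_entry m i j
    by_contra hcon
    rw [not_le] at hcon
    nlinarith
  have hlow : ∀ p, 1 ≤ 2 * H ^ (N + 1) * ‖m p p‖ := by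
    intro p
    refine (diag_lowerN hH hd0.le hd1 hdet hmH hl p).trans ?_
    have h1 : H ^ N ≤ H ^ (N + 1) := pow_le_pow_right₀ hH (Nat.le_succ N)
    exact mul_le_mul_of_nonneg_right (by linarith) (norm_nonneg _)
  have hpos : ∀ p, 0 < ‖m p p‖ := by
    intro p
    by_contra hcon
    have h0 : ‖m p p‖ = 0 := le_antisymm (not_lt.1 hcon) (norm_nonneg _)
    have := hlow p
    rw [h0, mul_zero] at this
    linarith
  -- logarithms
  let Lg : Fin N → ℝ := fun p => Real.log ‖m p p‖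
  have hLg : ∀ p, |Lg p| ≤ Real.log (2 * H ^ (N + 1)) := by
    intro p
    rw [abs_le]
    have h1 := hlow p
    have h3 := hmH p p
    have h5 := hpos p
    constructor
    · rw [← Real.log_inv]
      refine Real.log_le_log (by positivity) ?_
      rw [inv_eq_one_div, div_le_iff₀ (by positivity)]
      linarith
    · refine Real.log_le_log h5 (h3.trans ?_)
      have h2 : H ^ 1 ≤ H ^ (N + 1) := pow_le_pow_right₀ hH (by omega)
      rw [pow_one] at h2
      linarith
  -- the shifts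
  let sh : Fin N → ℤ := fun p => round ((T : ℝ) * Lg p)
  have hsh : ∀ p, |Lg p - (sh p : ℝ) / T| ≤ 1 / (2 * T) := by
    intro p
    have h1 : |(T : ℝ) * Lg p - (sh p : ℝ)| ≤ 1 / 2 := abs_sub_round ((T : ℝ) * Lg p)
    have h2 : Lg p - (sh p : ℝ) / T = ((T : ℝ) * Lg p - (sh p : ℝ)) / T := by
      rw [sub_div, mul_div_cancel_left₀ _ hTpos.ne']
    rw [h2, abs_div, abs_of_pos hTpos, div_le_div_iff₀ hTpos (by positivity)]
    nlinarith
  have h2N : 1 / (2 * (T : ℝ)) ≤ 1 / 2 := by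
    rw [div_le_div_iff₀ (by positivity) (by norm_num)]
    have : (1 : ℝ) ≤ T := by exact_mod_cast hT1
    linarith
  have hshL : ∀ p, |(sh p : ℝ) / T| ≤ Λ := by
    intro p
    have h1 := hsh p
    have h2 := hLg p
    have h3 : |(sh p : ℝ) / T| ≤ |Lg p| + |Lg p - (sh p : ℝ) / T| := by
      have h4 : (sh p : ℝ) / T = Lg p - (Lg p - (sh p : ℝ) / T) := by ring
      calc |(sh p : ℝ) / T| = |Lg p - (Lg p - (sh p : ℝ) / T)| := by rw [← h4]
        _ ≤ |Lg p| + |Lg p - (sh p : ℝ) / T| := abs_sub _ _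
    linarith
  have hshA : ∀ p, |sh p| ≤ (A : ℤ) := by
    intro p
    have h1 := hshL p
    rw [abs_div, abs_of_pos hTpos, div_le_iff₀ hTpos] at h1
    have h2 : |((sh p : ℤ) : ℝ)| ≤ ((A : ℤ) : ℝ) := by
      push_cast
      linarith
    exact_mod_cast h2
  refine ⟨sh, hshA, fun z hz => ?_⟩
  have hz0 : ∀ p, 0 ≤ (z p : ℝ) / T := fun p => by
    have : (0 : ℝ) ≤ z p := by exact_mod_cast (hz p).1
    positivity
  have hz1 : ∀ p, (z p : ℝ) / T ≤ n := fun p => by
    rw [div_le_iff₀ hTpos]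
    exact_mod_cast (hz p).2.le
  have hn0' : (0 : ℝ) ≤ n := Nat.cast_nonneg n
  set x := xe N n T z with hx
  set x' := xe N n T (z + sh) with hx'
  have ex : ∀ p, x p = 2 * n * ((N : ℝ) - (p : ℕ)) + (z p : ℝ) / T := fun p => rfl
  have ex' : ∀ p, x' p = 2 * n * ((N : ℝ) - (p : ℕ)) + (z p : ℝ) / T + (sh p : ℝ) / T := by
    intro p
    rw [hx']
    unfold xe
    rw [Pi.add_apply]
    push_cast
    ring
  have hdiag : ∀ p, x p - x' p = -((sh p : ℝ) / T) := by
    intro p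
    rw [ex, ex']
    ring
  have hupper : ∀ p q : Fin N, p < q → x q - x' p ≤ Λ - n := by
    intro p q hpq
    rw [ex, ex']
    have h1 := abs_le.1 (hshL p)
    have h2 := hz0 p
    have h3 := hz1 q
    have h4 : ((p : ℕ) : ℝ) + 1 ≤ (q : ℕ) := by exact_mod_cast hpq
    have h5 : (n : ℝ) * (((p : ℕ) : ℝ) + 1) ≤ n * (q : ℕ) := mul_le_mul_of_nonneg_left h4 hn0'
    linarith [h1.1]
  have hlower : ∀ p q : Fin N, q < p → x q - x' p ≤ 2 * n * N + n + Λ := by
    intro p q hpq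
    rw [ex, ex']
    have h1 := abs_le.1 (hshL p)
    have h2 := hz0 p
    have h3 := hz1 q
    have h4 : ((p : ℕ) : ℝ) ≤ N := by exact_mod_cast p.2.le
    have h5 : (n : ℝ) * ((p : ℕ) : ℝ) ≤ n * N := mul_le_mul_of_nonneg_left h4 hn0'
    have h6 : (0 : ℝ) ≤ n * ((q : ℕ) : ℝ) := by positivity
    linarith [h1.1]
  let v : Mn N := Matrix.of (fun p q => m p q * ((Real.exp (x q - x' p) : ℝ) : ℂ))
  let d0 : Mn N := Matrix.diagonal (fun p => m p p / (‖m p p‖ : ℂ))
  have hvapp : ∀ p q, v p q = m p q * ((Real.exp (x q - x' p) : ℝ) : ℂ) := fun p q => rfl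
  have hvn : ∀ p q, ‖v p q‖ = ‖m p q‖ * Real.exp (x q - x' p) := by
    intro p q
    rw [hvapp, norm_mul, Complex.norm_real, Real.norm_eq_abs, abs_of_pos (Real.exp_pos _)]
  refine ⟨v, d0, ?_, ?_, ?_⟩
  · show star d0 * d0 = 1
    rw [Matrix.star_eq_conjTranspose, Matrix.diagonal_conjTranspose, Matrix.diagonal_mul_diagonal,
      ← Matrix.diagonal_one]
    congr 1
    funext p
    have h1 : ((‖m p p‖ : ℝ) : ℂ) ≠ 0 := by exact_mod_cast (hpos p).ne'
    have h2 : (star (m p p)) * m p p = ((‖m p p‖ : ℝ) : ℂ) ^ 2 := by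
      rw [RCLike.star_def, RCLike.conj_mul]
      norm_cast
    show star (m p p / (‖m p p‖ : ℂ)) * (m p p / (‖m p p‖ : ℂ)) = 1
    rw [star_div₀]
    have h3 : star ((‖m p p‖ : ℝ) : ℂ) = ((‖m p p‖ : ℝ) : ℂ) := by
      rw [RCLike.star_def]
      exact Complex.conj_ofReal _
    rw [h3, div_mul_div_comm, h2, sq, div_self (mul_ne_zero h1 h1)]
  · have hent : ∀ p q, ‖(v - d0) p q‖ ≤ E := by
      intro p q
      rcases lt_trichotomy p q with h | h | h
      · have h1 : d0 p q = 0 := Matrix.diagonal_apply_ne _ h.ne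
        rw [Matrix.sub_apply, h1, sub_zero, hvn]
        exact (mul_le_mul (hmH p q) (Real.exp_le_exp.2 (hupper p q h)) (Real.exp_pos _).le
          hH0.le).trans hup
      · subst h
        have h1 : d0 p p = m p p / (‖m p p‖ : ℂ) := Matrix.diagonal_apply_eq _ _
        have h2 : ((‖m p p‖ : ℝ) : ℂ) ≠ 0 := by exact_mod_cast (hpos p).ne'
        have h3 : (v - d0) p p = (m p p / (‖m p p‖ : ℂ)) *
            (((Real.exp (Lg p - (sh p : ℝ) / T) - 1 : ℝ)) : ℂ) := by
          rw [Matrix.sub_apply, h1, hvapp, hdiag]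
          have h4 : Real.exp (-((sh p : ℝ) / T)) =
              Real.exp (Lg p - (sh p : ℝ) / T) / ‖m p p‖ := by
            rw [sub_eq_add_neg, Real.exp_add, Real.exp_log (hpos p)]
            have := (hpos p).ne'
            field_simp
          rw [h4]
          push_cast
          ring
        have h5 : ‖m p p / (‖m p p‖ : ℂ)‖ = 1 := by
          rw [norm_div, Complex.norm_real, norm_norm, div_self (hpos p).ne']
        rw [h3, norm_mul, h5, one_mul, Complex.norm_real, Real.norm_eq_abs]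
        have h6 := hsh p
        have h7 := Real.abs_exp_sub_one_le (x := Lg p - (sh p : ℝ) / T) (by linarith)
        have h8 : 2 * (1 / (2 * (T : ℝ))) = 1 / T := by
          field_simp
        linarith
      · have h1 : d0 p q = 0 := Matrix.diagonal_apply_ne _ h.ne'
        rw [Matrix.sub_apply, h1, sub_zero, hvn]
        exact (mul_le_mul (hl p q h) (Real.exp_le_exp.2 (hlower p q h)) (Real.exp_pos _).le
          hd0.le).trans hd2
    have h1 := hs_le_of_entries hent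
    have h2 : (N : ℝ) ^ 2 * E ^ 2 ≤ e ^ 2 := by
      have h3 : (N : ℝ) ^ 2 * E ^ 2 = (N * E) ^ 2 := by ring
      rw [h3]
      refine pow_le_pow_left₀ (by positivity) ?_ 2
      rw [hE, ← mul_div_assoc, div_le_iff₀ (by positivity)]
      nlinarith
    exact h1.trans h2
  · rw [D_eq, D_eq]
    ext p q
    rw [Matrix.mul_diagonal, Matrix.diagonal_mul, hvapp]
    have h2 : Real.exp (x q) = Real.exp (x' p) * Real.exp (x q - x' p) := by
      rw [← Real.exp_add]
      congr 1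
      ring
    have h3 : ((Real.exp (x q) : ℝ) : ℂ) =
        ((Real.exp (x' p) : ℝ) : ℂ) * ((Real.exp (x q - x' p) : ℝ) : ℂ) := by
      rw [h2]
      push_cast
      ring
    rw [h3]
    ring

end Pool.Agent.Helper35.AMn
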