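import Pool.Agent.Helper35.AMn.Basic
import Pool.Agent.Helper35.AMn.Shift

/-!
# AMn-U: an almost triangular unitary N x N matrix is almost diagonal (project RK, MP_0f6f3f_an)

The case `N = 3` is in `Pool/Agent/Helper35/AM/NearU.lean`.
PROOF IN WORDS (`near_diag`). Let `m` be unitary with entries below the diagonal at most `d <= 1/(4 N^3 + 4)` in modulus.
For `I = {i : i <= p}`: `sum_(i in I) sum_j |m_ij|^2 = #I = sum_(j in I) sum_i |m_ij|^2` (rows and columns are unit vectors), so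
`sum_(i in I) sum_(j not in I) |m_ij|^2 = sum_(j in I) sum_(i not in I) |m_ij|^2 <= N^2 d^2`; so for `p < q`: `|m_pq| <= N d`. So all the
off-diagonal entries are at most `N d` (`N >= 1`), and `|m_pp|^2 = 1 - sum_(q != p) |m_pq|^2 >= 1 - N^3 d^2`, so `1 - |m_pp| <= N^3 d^2 <= d`, `m_pp != 0`.
`d0 = diag (m_pp/|m_pp|)`, unitary. For `D = D N n T z` (positive diagonal matrix, all quotients of entries at most `Q = exp (2 n N + n)`)
put `v = D^-1 m D`, `v_pq = m_pq D_q/D_p`: off the diagonal `|v_pq| <= N d Q`, on the diagonal `|v_pp - d0_pp| = 1 - |m_pp| <= d`.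
So `hs (v - d0) <= N^2 (N d Q)^2 <= e^2` for `d` small (`Q >= 1`).
-/

open Finset Matrix

namespace Pool.Agent.Helper35.AMn

variable {N : ℕ}

theorem row_sum {m : Mn N} (hm : Un m) (i : Fin N) : ∑ j, ‖m i j‖ ^ 2 = 1 := by
  have h := congrFun (congrFun hm.mul_star i) i
  rw [Matrix.mul_apply, Matrix.one_apply_eq] at h
  have h2 : ((∑ j, ‖m i j‖ ^ 2 : ℝ) : ℂ) = 1 := by
    rw [← h]
    push_cast
    refine Finset.sum_congr rfl fun j _ => ?_
    rw [Matrix.star_apply, RCLike.star_def, Complex.mul_conj']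
  exact_mod_cast h2

theorem col_sum {m : Mn N} (hm : Un m) (j : Fin N) : ∑ i, ‖m i j‖ ^ 2 = 1 := by
  have h := row_sum hm.adj j
  simpa only [Matrix.star_apply, norm_star] using h

theorem offdiag {m : Mn N} (hm : Un m) {d : ℝ} (hd : 0 ≤ d) (hl : ∀ i j : Fin N, j < i → ‖m i j‖ ≤ d)
    (p q : Fin N) (hpq : p ≠ q) : ‖m p q‖ ≤ N * d := by
  have hN1 : (1 : ℝ) ≤ N := by
    have : 0 < N := p.pos
    exact_mod_cast this
  rcases lt_or_gt_of_ne hpq with h | h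
  · set I : Finset (Fin N) := Finset.univ.filter (· ≤ p) with hI
    have e1 : ∑ i ∈ I, ∑ j, ‖m i j‖ ^ 2 = ∑ j ∈ I, ∑ i, ‖m i j‖ ^ 2 := by
      rw [Finset.sum_congr rfl fun i _ => row_sum hm i, Finset.sum_congr rfl fun j _ => col_sum hm j]
    have e2 : ∑ i ∈ I, ∑ j, ‖m i j‖ ^ 2 = ∑ i ∈ I, ∑ j ∈ I, ‖m i j‖ ^ 2 + ∑ i ∈ I, ∑ j ∈ Iᶜ, ‖m i j‖ ^ 2 := by
      rw [← Finset.sum_add_distrib]
      exact Finset.sum_congr rfl fun i _ => (Finset.sum_add_sum_compl I _).symm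
    have e3 : ∑ j ∈ I, ∑ i, ‖m i j‖ ^ 2 = ∑ j ∈ I, ∑ i ∈ I, ‖m i j‖ ^ 2 + ∑ j ∈ I, ∑ i ∈ Iᶜ, ‖m i j‖ ^ 2 := by
      rw [← Finset.sum_add_distrib]
      exact Finset.sum_congr rfl fun i _ => (Finset.sum_add_sum_compl I _).symm
    have e4 : ∑ i ∈ I, ∑ j ∈ I, ‖m i j‖ ^ 2 = ∑ j ∈ I, ∑ i ∈ I, ‖m i j‖ ^ 2 := Finset.sum_comm
    have e5 : ∑ i ∈ I, ∑ j ∈ Iᶜ, ‖m i j‖ ^ 2 = ∑ j ∈ I, ∑ i ∈ Iᶜ, ‖m i j‖ ^ 2 := by linarith
    have e6 : ∑ j ∈ I, ∑ i ∈ Iᶜ, ‖m i j‖ ^ 2 ≤ N * (N * d ^ 2) := by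
      calc ∑ j ∈ I, ∑ i ∈ Iᶜ, ‖m i j‖ ^ 2 ≤ ∑ j ∈ I, ∑ i ∈ Iᶜ, d ^ 2 := by
            refine Finset.sum_le_sum fun j hj => Finset.sum_le_sum fun i hi => ?_
            rw [hI, Finset.mem_filter] at hj
            rw [hI, Finset.mem_compl, Finset.mem_filter, not_and] at hi
            have hij : j < i := lt_of_le_of_lt hj.2 (not_le.mp (hi (Finset.mem_univ i)))
            exact pow_le_pow_left₀ (norm_nonneg _) (hl i j hij) 2
        _ ≤ ∑ _j : Fin N, ∑ _i : Fin N, d ^ 2 := by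
            refine (Finset.sum_le_sum_of_subset_of_nonneg (Finset.subset_univ _) fun j _ _ => ?_).trans
              (Finset.sum_le_sum fun j _ => ?_)
            · exact Finset.sum_nonneg fun i _ => sq_nonneg d
            · exact Finset.sum_le_sum_of_subset_of_nonneg (Finset.subset_univ _) fun i _ _ => sq_nonneg d
        _ = N * (N * d ^ 2) := by simp
    have hp : p ∈ I := by rw [hI, Finset.mem_filter]; exact ⟨Finset.mem_univ p, le_rfl⟩
    have hq : q ∈ Iᶜ := by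
      rw [hI, Finset.mem_compl, Finset.mem_filter, not_and]
      exact fun _ => not_le.mpr h
    have e7 : ‖m p q‖ ^ 2 ≤ ∑ i ∈ I, ∑ j ∈ Iᶜ, ‖m i j‖ ^ 2 := by
      calc ‖m p q‖ ^ 2 ≤ ∑ j ∈ Iᶜ, ‖m p j‖ ^ 2 :=
            Finset.single_le_sum (f := fun j => ‖m p j‖ ^ 2) (fun _ _ => sq_nonneg _) hq
        _ ≤ _ := Finset.single_le_sum (f := fun i => ∑ j ∈ Iᶜ, ‖m i j‖ ^ 2)
            (fun _ _ => Finset.sum_nonneg fun _ _ => sq_nonneg _) hp
    have e8 : ‖m p q‖ ^ 2 ≤ (N * d) ^ 2 := by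
      calc ‖m p q‖ ^ 2 ≤ N * (N * d ^ 2) := by linarith
        _ = (N * d) ^ 2 := by ring
    exact (sq_le_sq₀ (norm_nonneg _) (by positivity)).mp e8
  · have h1 := hl p q h
    nlinarith

theorem near_diag (N n T : ℕ) (hT : 1 ≤ T) (e : ℝ) (he : 0 < e) : ∃ d : ℝ, 0 < d ∧ ∀ m : Mn N, Un m →
    (∀ i j : Fin N, j < i → ‖m i j‖ ≤ d) → ∀ z : Fin N → ℤ, (∀ p, 0 ≤ z p ∧ z p < n * T) →
      ∃ v d0 : Mn N, Un d0 ∧ hs (v - d0) ≤ e ^ 2 ∧ m * D N n T z = D N n T z * v := by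
  set Q : ℝ := Real.exp (2 * n * N + n) with hQ
  have hQ1 : 1 ≤ Q := Real.one_le_exp (by positivity)
  have hQ0 : 0 < Q := by linarith
  set d : ℝ := min (1 / ((N : ℝ) ^ 3 + 1)) (e / (N * (N + 1) * Q + 1)) with hd
  have hd0 : 0 < d := lt_min (by positivity) (by positivity)
  have hd1 : (N : ℝ) ^ 3 * d ≤ 1 := by
    have h1 : d ≤ 1 / ((N : ℝ) ^ 3 + 1) := min_le_left _ _
    rw [le_div_iff₀ (by positivity)] at h1
    nlinarith
  have hd2 : N * (N + 1) * Q * d ≤ e := by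
    have h1 : d ≤ e / (N * (N + 1) * Q + 1) := min_le_right _ _
    rw [le_div_iff₀ (by positivity)] at h1
    nlinarith
  refine ⟨d, hd0, fun m hm hl z hz => ?_⟩
  have hT0 : (0 : ℝ) < T := by exact_mod_cast hT
  have hoff := offdiag hm hd0.le hl
  have hle1 : ∀ p, ‖m p p‖ ≤ 1 := by
    intro p
    have h1 := row_sum hm p
    have h2 := Finset.single_le_sum (f := fun j => ‖m p j‖ ^ 2) (fun _ _ => sq_nonneg _) (Finset.mem_univ p)
    have h3 : ‖m p p‖ ^ 2 ≤ 1 := by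
      rw [← h1]
      exact h2
    exact (sq_le_one_iff₀ (norm_nonneg _)).1 h3
  have hdiag : ∀ p, 1 - d ≤ ‖m p p‖ := by
    intro p
    have h1 := row_sum hm p
    rw [← Finset.add_sum_erase _ _ (Finset.mem_univ p)] at h1
    have h2 : ∑ j ∈ Finset.univ.erase p, ‖m p j‖ ^ 2 ≤ N * (N * d) ^ 2 := by
      calc ∑ j ∈ Finset.univ.erase p, ‖m p j‖ ^ 2 ≤ ∑ j ∈ Finset.univ.erase p, (N * d) ^ 2 := by
            refine Finset.sum_le_sum fun j hj => ?_
            exact pow_le_pow_left₀ (norm_nonneg _) (hoff p j (Finset.ne_of_mem_erase hj).symm) 2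
        _ ≤ ∑ _j : Fin N, (N * d) ^ 2 :=
            Finset.sum_le_sum_of_subset_of_nonneg (Finset.subset_univ _) fun _ _ _ => sq_nonneg _
        _ = N * (N * d) ^ 2 := by simp
    have h3 : (N : ℝ) * (N * d) ^ 2 ≤ d := by
      calc (N : ℝ) * (N * d) ^ 2 = ((N : ℝ) ^ 3 * d) * d := by ring
        _ ≤ 1 * d := mul_le_mul_of_nonneg_right hd1 hd0.le
        _ = d := one_mul d
    have h4 : ‖m p p‖ ^ 2 ≤ ‖m p p‖ := by
      have := hle1 p
      nlinarith [norm_nonneg (m p p)]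
    linarith
  have hne : ∀ p, 0 < ‖m p p‖ := by
    intro p
    have h1 := hdiag p
    have h2 := row_sum hm p
    rw [← Finset.add_sum_erase _ _ (Finset.mem_univ p)] at h2
    by_contra hcon
    have h0 : ‖m p p‖ = 0 := le_antisymm (not_lt.1 hcon) (norm_nonneg _)
    have h5 : ∑ j ∈ Finset.univ.erase p, ‖m p j‖ ^ 2 ≤ (N - 1) * (N * d) ^ 2 := by
      calc ∑ j ∈ Finset.univ.erase p, ‖m p j‖ ^ 2 ≤ ∑ j ∈ Finset.univ.erase p, (N * d) ^ 2 := by
            refine Finset.sum_le_sum fun j hj => ?_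
            exact pow_le_pow_left₀ (norm_nonneg _) (hoff p j (Finset.ne_of_mem_erase hj).symm) 2
        _ = (N - 1) * (N * d) ^ 2 := by
            rw [Finset.sum_const, Finset.card_erase_of_mem (Finset.mem_univ p), Finset.card_univ,
              Fintype.card_fin, nsmul_eq_mul, Nat.cast_sub p.pos]
            push_cast
            ring
    have h6 : ((N : ℝ) - 1) * (N * d) ^ 2 < 1 := by
      have hd3 : d ≤ 1 / ((N : ℝ) ^ 3 + 1) := min_le_left _ _
      rw [le_div_iff₀ (by positivity)] at hd3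
      have hN1 : (1 : ℝ) ≤ N := by exact_mod_cast p.pos
      have hdlt : d < 1 := by nlinarith [pow_pos (by linarith : (0 : ℝ) < N) 3]
      calc ((N : ℝ) - 1) * (N * d) ^ 2 ≤ N * (N * d) ^ 2 := by nlinarith [sq_nonneg ((N : ℝ) * d)]
        _ = ((N : ℝ) ^ 3 * d) * d := by ring
        _ ≤ 1 * d := mul_le_mul_of_nonneg_right hd1 hd0.le
        _ < 1 := by linarith
    have h8 : ‖m p p‖ ^ 2 = 0 := by rw [h0]; norm_num
    linarith
  set x : Fin N → ℝ := fun p => 2 * n * ((N : ℝ) - (p : ℕ)) + z p / T with hx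
  have hz0 : ∀ p, 0 ≤ (z p : ℝ) / T := by
    intro p
    have : (0 : ℝ) ≤ z p := by exact_mod_cast (hz p).1
    positivity
  have hz1 : ∀ p, (z p : ℝ) / T ≤ n := by
    intro p
    rw [div_le_iff₀ hT0]
    exact_mod_cast (hz p).2.le
  have hxx : ∀ p q, Real.exp (x q - x p) ≤ Q := by
    intro p q
    refine Real.exp_le_exp.mpr ?_
    have h1 := hz0 p
    have h2 := hz1 q
    have h3 : ((p : ℕ) : ℝ) ≤ N := by exact_mod_cast p.2.le
    have h4 : (0 : ℝ) ≤ ((q : ℕ) : ℝ) := by positivity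
    have h5 : (0 : ℝ) ≤ n := Nat.cast_nonneg n
    have h6 : (n : ℝ) * ((p : ℕ) : ℝ) ≤ n * N := mul_le_mul_of_nonneg_left h3 h5
    have h7 : 0 ≤ (n : ℝ) * ((q : ℕ) : ℝ) := mul_nonneg h5 h4
    have e1 : x q - x p = 2 * (n * ((p : ℕ) : ℝ)) - 2 * (n * ((q : ℕ) : ℝ)) + z q / T - z p / T := by
      simp only [hx]
      ring
    rw [e1]
    linarith
  have hN0 : (0 : ℝ) ≤ N := Nat.cast_nonneg N
  refine ⟨Matrix.of (fun p q => m p q * ((Real.exp (x q - x p) : ℝ) : ℂ)),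
    Matrix.diagonal (fun p => m p p / ((‖m p p‖ : ℝ) : ℂ)), ?_, ?_, ?_⟩
  · unfold Un
    rw [Matrix.star_eq_conjTranspose, Matrix.diagonal_conjTranspose, Matrix.diagonal_mul_diagonal,
      ← Matrix.diagonal_one]
    congr 1
    funext p
    have h1 : ((‖m p p‖ : ℝ) : ℂ) ≠ 0 := by exact_mod_cast (hne p).ne'
    have h2 : (star (m p p)) * m p p = ((‖m p p‖ : ℝ) : ℂ) ^ 2 := by
      rw [RCLike.star_def, Complex.conj_mul']
    change star (m p p / ((‖m p p‖ : ℝ) : ℂ)) * (m p p / ((‖m p p‖ : ℝ) : ℂ)) = 1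
    rw [star_div₀]
    have h3 : star ((‖m p p‖ : ℝ) : ℂ) = ((‖m p p‖ : ℝ) : ℂ) := by
      rw [RCLike.star_def]
      exact Complex.conj_ofReal _
    rw [h3, div_mul_div_comm, h2, sq, div_self (mul_ne_zero h1 h1)]
  · have hent : ∀ p q : Fin N, ‖(Matrix.of (fun p q => m p q * ((Real.exp (x q - x p) : ℝ) : ℂ)) -
        Matrix.diagonal (fun p => m p p / ((‖m p p‖ : ℝ) : ℂ))) p q‖ ≤ (N + 1) * (Q * d) := by
      intro p q
      rw [Matrix.sub_apply, Matrix.of_apply]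
      by_cases hpq : p = q
      · subst hpq
        have h1 : ((‖m p p‖ : ℝ) : ℂ) ≠ 0 := by exact_mod_cast (hne p).ne'
        rw [Matrix.diagonal_apply_eq, sub_self, Real.exp_zero, Complex.ofReal_one, mul_one]
        have e1 : m p p - m p p / ((‖m p p‖ : ℝ) : ℂ) =
            m p p / ((‖m p p‖ : ℝ) : ℂ) * (((‖m p p‖ - 1 : ℝ)) : ℂ) := by
          push_cast
          field_simp
        rw [e1, norm_mul, norm_div, Complex.norm_real, Complex.norm_real, norm_norm,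
          div_self (hne p).ne', one_mul, Real.norm_eq_abs, abs_of_nonpos (by linarith [hle1 p])]
        have h2 := hdiag p
        have h3 : d ≤ Q * d := by nlinarith
        have h4 : 0 ≤ N * (Q * d) := by positivity
        linarith
      · rw [Matrix.diagonal_apply_ne _ hpq, sub_zero, norm_mul, Complex.norm_real,
          Real.norm_of_nonneg (Real.exp_pos _).le]
        calc ‖m p q‖ * Real.exp (x q - x p) ≤ (N * d) * Q :=
              mul_le_mul (hoff p q hpq) (hxx p q) (Real.exp_pos _).le (by positivity)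
          _ ≤ (N + 1) * (Q * d) := by nlinarith [mul_pos hQ0 hd0]
    refine (hs_le_of_entries hent).trans ?_
    have h5 : (N : ℝ) ^ 2 * ((N + 1) * (Q * d)) ^ 2 = (N * (N + 1) * Q * d) ^ 2 := by ring
    rw [h5]
    exact pow_le_pow_left₀ (by positivity) hd2 2
  · unfold D
    ext p q
    rw [Matrix.mul_diagonal, Matrix.diagonal_mul, Matrix.of_apply]
    have h2 : Real.exp (x q) = Real.exp (x p) * Real.exp (x q - x p) := by
      rw [← Real.exp_add]
      congr 1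
      ring
    have h3 : ((Real.exp (x q) : ℝ) : ℂ) = ((Real.exp (x p) : ℝ) : ℂ) * ((Real.exp (x q - x p) : ℝ) : ℂ) := by
      rw [h2, Complex.ofReal_mul]
    change m p q * ((Real.exp (x q) : ℝ) : ℂ) =
      ((Real.exp (x p) : ℝ) : ℂ) * (m p q * ((Real.exp (x q - x p) : ℝ) : ℂ))
    rw [h3]
    ring

end Pool.Agent.Helper35.AMn
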