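import Pool.Agent.Helper35.AMn.Basic
import Pool.Agent.Helper35.AM.Avg

/-!
# AMn: truncation of probability measures (from the case of dimension 3)
-/

open Finset

namespace Pool.Agent.Helper35.AMn

variable {G : Type*}

open Classical in
/-- Restriction to a finite set, normalised. -/
noncomputable def trunc (S : Finset G) (P : G → ℝ) (g : G) : ℝ := if g ∈ S then P g / ∑ t ∈ S, P t else 0

theorem trunc_nonneg (S : Finset G) {P : G → ℝ} (h0 : ∀ g, 0 ≤ P g) (g : G) : 0 ≤ trunc S P g :=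
  AM.trunc_nonneg S h0 g

theorem trunc_sum (S : Finset G) {P : G → ℝ} (h : 0 < ∑ t ∈ S, P t) : ∑ t ∈ S, trunc S P t = 1 :=
  AM.trunc_sum S h

theorem trunc_dist (S : Finset G) {P : G → ℝ} (h0 : ∀ g, 0 ≤ P g) (h1 : HasSum P 1) {e : ℝ}
    (he : e ≤ 1 / 2) (hS : 1 - e ≤ ∑ t ∈ S, P t) : Dist (trunc S P) P (2 * e) :=
  AM.trunc_dist S h0 h1 he hS

theorem trunc_close (S : Finset G) {P Q : G → ℝ} (h0 : ∀ g, 0 ≤ P g) (h0' : ∀ g, 0 ≤ Q g)
    (hP : 1 / 2 ≤ ∑ t ∈ S, P t) (hQ : 1 / 2 ≤ ∑ t ∈ S, Q t) {e : ℝ} (h : Dist P Q e) :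
    ∑ t ∈ S, |trunc S P t - trunc S Q t| ≤ 4 * e :=
  AM.trunc_close S h0 h0' hP hQ h

end Pool.Agent.Helper35.AMn
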