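import Pool.Agent.Helper35.AMn.Growth
import Pool.Agent.Helper35.AMn.Kap
import Pool.Agent.Helper35.AMn.Shift
import Pool.Agent.Helper35.AMn.NearU
import Pool.Agent.Helper35.AMn.Avg
import Pool.Agent.Helper35.AMn.Trunc

/-!
# AMn: right amenability in dimension N (project RK, MP_0f6f3f_an)

`am`: for a proper map `iota : G -> M_N(C)`, multiplicative up to scalars of modulus one and with determinants of
modulus one, the action of `G` on the space of complete flags is amenable in the quantitative form used in the project: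
there are finitely supported probability measures `kappa k` on `G` which depend only on the flag of `k` in the
(uniformly continuous) sense of the last condition and are almost equivariant. `am_low`: the same for lower triangular
matrices instead of upper triangular ones, for projective representations.
-/

open Finset Matrix Filter Topology

namespace Pool.Agent.Helper35.AMn

variable {N : ℕ} {G : Type*} [Group G] {ι : G → Mn N} {L : ℕ}

theorem near_mul {v d0 : Mn N} (hd : Un d0) {e : ℝ} (he : 0 ≤ e) (he1 : e ≤ 1)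
    (h : hs (v - d0) ≤ e ^ 2) (Y : Mn N) :
    (1 - e) ^ 2 * hs Y ≤ hs (Y * v) ∧ hs (Y * v) ≤ (1 + e) ^ 2 * hs Y := by
  have hs' : Real.sqrt (hs (v - d0)) ≤ e := by
    rw [← Real.sqrt_sq he]
    exact Real.sqrt_le_sqrt h
  set s := Real.sqrt (hs Y) with hs_def
  have hs0 : 0 ≤ s := Real.sqrt_nonneg _
  have hsY : hs Y = s ^ 2 := (Real.sq_sqrt (hs_nonneg Y)).symm
  set r := Real.sqrt (hs (Y * v)) with hr_def
  have hr0 : 0 ≤ r := Real.sqrt_nonneg _
  have hrY : hs (Y * v) = r ^ 2 := (Real.sq_sqrt (hs_nonneg _)).symm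
  have h1 : Real.sqrt (hs (Y * (v - d0))) ≤ s * e :=
    (sqrt_hs_mul_le _ _).trans (mul_le_mul_of_nonneg_left hs' hs0)
  have h2 : r ≤ s + s * e := by
    have := sqrt_hs_add_le (Y * d0) (Y * (v - d0))
    rw [← mul_add, add_sub_cancel, hs_un_right hd] at this
    linarith
  have h3 : s ≤ r + s * e := by
    have := sqrt_hs_sub_le (Y * v) (Y * (v - d0))
    rw [← mul_sub, sub_sub_cancel, hs_un_right hd] at this
    linarith
  rw [hsY, hrY]
  constructor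
  · have : (1 - e) * s ≤ r := by linarith
    have h0 : 0 ≤ (1 - e) * s := mul_nonneg (by linarith) hs0
    calc (1 - e) ^ 2 * s ^ 2 = ((1 - e) * s) ^ 2 := by ring
      _ ≤ r ^ 2 := by gcongr
  · calc r ^ 2 ≤ (s + s * e) ^ 2 := by gcongr
      _ = (1 + e) ^ 2 * s ^ 2 := by ring

theorem exists_small (L : ℕ) {ε : ℝ} (hε : 0 < ε) :
    ∃ e : ℝ, 0 < e ∧ e < 1 ∧ ((1 + e) ^ 2 / (1 - e) ^ 2) ^ L - 1 ≤ ε := by
  have hc : ContinuousAt (fun e : ℝ => ((1 + e) ^ 2 / (1 - e) ^ 2) ^ L - 1) 0 := by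
    have h1 : ContinuousAt (fun e : ℝ => (1 + e) ^ 2) 0 := by fun_prop
    have h2 : ContinuousAt (fun e : ℝ => (1 - e) ^ 2) 0 := by fun_prop
    exact ((h1.div h2 (by norm_num)).pow L).sub continuousAt_const
  have h0 : ((1 + (0 : ℝ)) ^ 2 / (1 - 0) ^ 2) ^ L - 1 < ε := by simpa using hε
  have hev : ∀ᶠ e in 𝓝 (0 : ℝ), ((1 + e) ^ 2 / (1 - e) ^ 2) ^ L - 1 < ε :=
    hc.eventually (gt_mem_nhds h0)
  obtain ⟨r, hr, hr'⟩ := Metric.eventually_nhds_iff.mp hev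
  refine ⟨min (r / 2) (1 / 2), by positivity, ?_, ?_⟩
  · exact (min_le_right _ _).trans_lt (by norm_num)
  · refine (hr' ?_).le
    have : (0 : ℝ) < min (r / 2) (1 / 2) := by positivity
    rw [Real.dist_eq, sub_zero, abs_of_pos this]
    exact (min_le_left _ _).trans_lt (by linarith)

theorem kap_near (hN : 0 < N) (hι : Rep G ι) (hL : Summable (fun g : G => ((hs (ι g))⁻¹) ^ L)) {ε : ℝ}
    (hε : 0 < ε) : ∃ e : ℝ, 0 < e ∧ ∀ X v d0 : Mn N, X.det ≠ 0 → (X * v).det ≠ 0 → Un d0 →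
      hs (v - d0) ≤ e ^ 2 → Dist (kap ι L (X * v)) (kap ι L X) ε := by
  obtain ⟨e, he, he1, h⟩ := exists_small L hε
  refine ⟨e, he, fun X v d0 hX hXv hd hv => ?_⟩
  have h1 : (0 : ℝ) < (1 - e) ^ 2 := by
    have : 0 < 1 - e := by linarith
    positivity
  exact (harnack hN hι hL hX hXv h1 (fun Y => (near_mul hd he.le he1.le hv Y).1)
    (fun Y => (near_mul hd he.le he1.le hv Y).2)).mono h

theorem D_det (N n T : ℕ) (z : Fin N → ℤ) : (D N n T z).det ≠ 0 := by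
  unfold D
  rw [Matrix.det_diagonal]
  exact Finset.prod_ne_zero_iff.mpr fun p _ => by exact_mod_cast (Real.exp_pos _).ne'

/-- The averaged measures. -/
noncomputable def Pk (ι : G → Mn N) (L n T : ℕ) (k : Mn N) (g : G) : ℝ :=
  avg (n * T) (fun z => kap ι L (k * D N n T z)) g

theorem Pk_equiv (hι : Rep G ι) (n T : ℕ) (k : Mn N) (h g : G) :
    Pk ι L n T (ι h * k) g = Pk ι L n T k (h⁻¹ * g) := by
  unfold Pk avg
  simp only [mul_assoc, kap_equiv hι]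

theorem kD_det {k : Mn N} (hk : Un k) (n T : ℕ) (z : Fin N → ℤ) : (k * D N n T z).det ≠ 0 := by
  rw [Matrix.det_mul]
  exact mul_ne_zero hk.det_ne (D_det N n T z)

theorem Pk_hasSum (hN : 0 < N) (hι : Rep G ι) (hL : Summable (fun g : G => ((hs (ι g))⁻¹) ^ L)) {n T : ℕ}
    (hM : 1 ≤ n * T) {k : Mn N} (hk : Un k) : HasSum (Pk ι L n T k) 1 :=
  avg_hasSum hM fun z => kap_hasSum hN hι hL (kD_det hk n T z)

theorem Pk_nonneg (n T : ℕ) (k : Mn N) (g : G) : 0 ≤ Pk ι L n T k g :=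
  avg_nonneg _ (fun _ _ => kap_nonneg _ _ _ _) g

omit [Group G] in
theorem sum_le_one {P : G → ℝ} (h0 : ∀ g, 0 ≤ P g) (h1 : HasSum P 1) (s : Finset G) :
    ∑ g ∈ s, P g ≤ 1 := sum_le_hasSum s (fun g _ => h0 g) h1

theorem Pk_le (hN : 0 < N) (hι : Rep G ι) (hL : Summable (fun g : G => ((hs (ι g))⁻¹) ^ L)) {n T : ℕ}
    (hM : 1 ≤ n * T) : ∃ C : ℝ, 0 ≤ C ∧ ∀ k : Mn N, Un k → ∀ g : G,
      Pk ι L n T k g ≤ C * ((hs (ι g⁻¹))⁻¹) ^ L := by
  refine ⟨∑ z ∈ box N (n * T), (hs (D N n T z) * hs (D N n T z)⁻¹) ^ L, ?_, ?_⟩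
  · exact Finset.sum_nonneg fun z _ => pow_nonneg (mul_nonneg (hs_nonneg _) (hs_nonneg _)) _
  · intro k hk g
    have h1 : ∀ z : Fin N → ℤ, kap ι L (k * D N n T z) g ≤
        (hs (D N n T z) * hs (D N n T z)⁻¹) ^ L * ((hs (ι g⁻¹))⁻¹) ^ L := by
      intro z
      have := kap_le hN hι hL (kD_det hk n T z) g
      rwa [hs_un_left hk, Matrix.mul_inv_rev, show k⁻¹ = star k from Matrix.inv_eq_left_inv hk,
        hs_un_right hk.adj] at this
    have h2 : ∑ z ∈ box N (n * T), kap ι L (k * D N n T z) g ≤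
        (∑ z ∈ box N (n * T), (hs (D N n T z) * hs (D N n T z)⁻¹) ^ L) * ((hs (ι g⁻¹))⁻¹) ^ L := by
      rw [Finset.sum_mul]
      exact Finset.sum_le_sum fun z _ => h1 z
    have h3 : 0 ≤ ∑ z ∈ box N (n * T), kap ι L (k * D N n T z) g :=
      Finset.sum_nonneg fun z _ => kap_nonneg _ _ _ _
    have hM' : (1 : ℝ) ≤ ((n * T : ℕ) : ℝ) ^ N := one_le_pow₀ (by exact_mod_cast hM)
    unfold Pk avg
    exact (div_le_self h3 hM').trans h2

theorem tail (hN : 0 < N) (hι : Rep G ι) (hL : Summable (fun g : G => ((hs (ι g))⁻¹) ^ L)) {n T : ℕ}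
    (hM : 1 ≤ n * T) {ε : ℝ} (hε : 0 < ε) : ∃ S : Finset G, ∀ k : Mn N, Un k →
      1 - ε ≤ ∑ t ∈ S, Pk ι L n T k t := by
  obtain ⟨C, hC, hP⟩ := Pk_le hN hι hL hM
  have hu : Summable (fun g : G => ((hs (ι g⁻¹))⁻¹) ^ L) := (Equiv.inv G).summable_iff.mpr hL
  obtain ⟨U, hU⟩ := hu
  have hδ : 0 < ε / (C + 1) := by positivity
  have hev : ∀ᶠ S : Finset G in atTop, U - ε / (C + 1) < ∑ t ∈ S, ((hs (ι t⁻¹))⁻¹) ^ L :=
    hU.eventually (lt_mem_nhds (by linarith))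
  obtain ⟨S, hS⟩ := hev.exists
  refine ⟨S, fun k hk => ?_⟩
  have h1 : HasSum (fun t => C * ((hs (ι t⁻¹))⁻¹) ^ L - Pk ι L n T k t) (C * U - 1) :=
    (hU.mul_left C).sub (Pk_hasSum hN hι hL hM hk)
  have h2 := sum_le_hasSum S (fun t _ => sub_nonneg.mpr (hP k hk t)) h1
  rw [Finset.sum_sub_distrib, ← Finset.mul_sum] at h2
  have h3 : C * (U - ∑ t ∈ S, ((hs (ι t⁻¹))⁻¹) ^ L) ≤ C * (ε / (C + 1)) :=
    mul_le_mul_of_nonneg_left (by linarith) hC
  have h4 : C * (ε / (C + 1)) ≤ ε := by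
    rw [mul_div_assoc', div_le_iff₀ (by positivity)]
    nlinarith
  linarith

theorem triang (hN : 0 < N) (hι : Rep G ι) (hL : Summable (fun g : G => ((hs (ι g))⁻¹) ^ L)) (Q : Finset G)
    {ε : ℝ} (hε : 0 < ε) : ∃ n T : ℕ, 1 ≤ T ∧ 1 ≤ n * T ∧ ∃ d : ℝ, 0 < d ∧ ∀ h ∈ Q, ∀ k k' : Mn N,
      Un k → Un k' → (∀ i j : Fin N, j < i → ‖(star k * ι h * k') i j‖ ≤ d) →
      Dist (Pk ι L n T k) (fun t => Pk ι L n T k' (h⁻¹ * t)) ε := by
  obtain ⟨H, hH1, hH⟩ : ∃ H : ℝ, 1 ≤ H ∧ ∀ h ∈ Q, hs (ι h) ≤ H := by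
    refine ⟨1 + ∑ h ∈ Q, hs (ι h), ?_, fun h hh => ?_⟩
    · have : 0 ≤ ∑ h ∈ Q, hs (ι h) := Finset.sum_nonneg fun _ _ => hs_nonneg _
      linarith
    · have := Finset.single_le_sum (f := fun h => hs (ι h)) (fun _ _ => hs_nonneg _) hh
      linarith
  obtain ⟨e, he, hnear⟩ := kap_near hN hι hL (half_pos hε)
  obtain ⟨T, hT, A, n0, hsh⟩ := shift_exists N H e hH1 he
  obtain ⟨n1, hn1⟩ := exists_nat_gt (2 * (N * A) / (ε / 2))
  set n := max (max n0 n1) 1 with hn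
  have hn0 : n0 ≤ n := (le_max_left _ _).trans (le_max_left _ _)
  have hn1' : n1 ≤ n := (le_max_right _ _).trans (le_max_left _ _)
  have hn1'' : 1 ≤ n := le_max_right _ _
  have hM : 1 ≤ n * T := Nat.mul_pos hn1'' hT
  obtain ⟨d, hd, hm⟩ := hsh n hn0
  refine ⟨n, T, hT, hM, d, hd, fun h hh k k' hk hk' htri => ?_⟩
  have hdet : ‖(star k * ι h * k').det‖ = 1 := by
    rw [Matrix.det_mul, Matrix.det_mul, norm_mul, norm_mul, hk.adj.det, hι.det, hk'.det]
    norm_num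
  have hhs : hs (star k * ι h * k') ≤ H := by
    rw [hs_un_right hk', hs_un_left hk.adj]
    exact hH h hh
  obtain ⟨a, ha, hab⟩ := hm _ hdet hhs htri
  have hkm : k * (star k * ι h * k') = ι h * k' := by
    calc k * (star k * ι h * k') = (k * star k) * (ι h * k') := by simp only [mul_assoc]
      _ = ι h * k' := by rw [hk.mul_star, one_mul]
  have e1 : (fun t => Pk ι L n T k' (h⁻¹ * t)) = Pk ι L n T (ι h * k') := by
    funext t
    rw [Pk_equiv hι]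
  rw [e1]
  have step1 : Dist (avg (n * T) (fun z => kap ι L (ι h * k' * D N n T z)))
      (avg (n * T) (fun z => kap ι L (k * D N n T (z + a)))) (ε / 2) := by
    refine avg_dist hM fun z hz => ?_
    rw [mem_box] at hz
    push_cast at hz
    obtain ⟨v, d0, hd0, hv, heq⟩ := hab z hz
    have e2 : ι h * k' * D N n T z = k * D N n T (z + a) * v := by
      rw [← hkm, mul_assoc, heq, mul_assoc]
    have hne : (ι h * k' * D N n T z).det ≠ 0 := by
      rw [Matrix.det_mul, Matrix.det_mul]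
      exact mul_ne_zero (mul_ne_zero (hι.det_ne h) hk'.det_ne) (D_det N n T z)
    have hne2 : (k * D N n T (z + a) * v).det ≠ 0 := by
      rw [← e2]
      exact hne
    rw [e2]
    exact hnear _ v d0 (kD_det hk n T _) hne2 hd0 hv
  have step2 : Dist (avg (n * T) (fun z => kap ι L (k * D N n T (z + a))))
      (avg (n * T) (fun z => kap ι L (k * D N n T z)))
      (2 * (∑ p, ((|a p| : ℤ) : ℝ)) / ((n * T : ℕ) : ℝ)) :=
    avg_shift hM (P := fun z => kap ι L (k * D N n T z)) (fun z g => kap_nonneg ι L _ g)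
      (fun z s => sum_le_one (fun g => kap_nonneg ι L _ g) (kap_hasSum hN hι hL (kD_det hk n T z)) s) a
  have hle : (2 * (∑ p, ((|a p| : ℤ) : ℝ)) / ((n * T : ℕ) : ℝ) : ℝ) ≤ ε / 2 := by
    have ha' : ∑ p, ((|a p| : ℤ) : ℝ) ≤ N * A := by
      calc ∑ p, ((|a p| : ℤ) : ℝ) ≤ ∑ _p : Fin N, (A : ℝ) :=
            Finset.sum_le_sum fun p _ => by exact_mod_cast ha p
        _ = N * A := by simp
    have hnn : (n1 : ℝ) ≤ ((n * T : ℕ) : ℝ) := by
      have : n1 ≤ n * T := hn1'.trans (Nat.le_mul_of_pos_right n hT)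
      exact_mod_cast this
    have hpos : (0 : ℝ) < ((n * T : ℕ) : ℝ) := by exact_mod_cast hM
    rw [div_lt_iff₀ (by positivity)] at hn1
    rw [div_le_iff₀ hpos]
    have : (n1 : ℝ) * (ε / 2) ≤ ((n * T : ℕ) : ℝ) * (ε / 2) := by gcongr
    linarith
  have hfin := (step1.trans (step2.mono hle)).symm
  have : ε / 2 + ε / 2 = ε := by ring
  rw [this] at hfin
  exact hfin

theorem close (hN : 0 < N) (hι : Rep G ι) (hL : Summable (fun g : G => ((hs (ι g))⁻¹) ^ L)) {n T : ℕ}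
    (hT : 1 ≤ T) (hM : 1 ≤ n * T) {ε : ℝ} (hε : 0 < ε) : ∃ d : ℝ, 0 < d ∧ ∀ k k' : Mn N, Un k → Un k' →
      (∀ i j : Fin N, j < i → ‖(star k * k') i j‖ ≤ d) →
      Dist (Pk ι L n T k) (Pk ι L n T k') ε := by
  obtain ⟨e, he, hnear⟩ := kap_near hN hι hL hε
  obtain ⟨d, hd, hm⟩ := near_diag N n T hT e he
  refine ⟨d, hd, fun k k' hk hk' htri => ?_⟩
  have hkm : k * (star k * k') = k' := by
    rw [← mul_assoc, hk.mul_star, one_mul]
  refine Dist.symm (avg_dist hM fun z hz => ?_)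
  rw [mem_box] at hz
  push_cast at hz
  obtain ⟨v, d0, hd0, hv, heq⟩ := hm _ (hk.adj.mul hk') htri z hz
  have e2 : k' * D N n T z = k * D N n T z * v := by
    calc k' * D N n T z = k * ((star k * k') * D N n T z) := by rw [← mul_assoc, hkm]
      _ = k * D N n T z * v := by rw [heq, mul_assoc]
  have hne2 : (k * D N n T z * v).det ≠ 0 := by
    rw [← e2]
    exact kD_det hk' n T z
  rw [e2]
  exact hnear _ v d0 (kD_det hk n T _) hne2 hd0 hv

/-- PROP AM. -/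
theorem am (hN : 0 < N) (hι : Rep G ι) (Q : Finset G) {ε : ℝ} (hε : 0 < ε) :
    ∃ (S : Finset G) (κ : Mn N → G → ℝ) (d : ℝ), 0 < d ∧ (∀ k t, 0 ≤ κ k t) ∧
      (∀ k t, t ∉ S → κ k t = 0) ∧ (∀ k, Un k → ∑ t ∈ S, κ k t = 1) ∧
      (∀ h ∈ Q, ∀ k k' : Mn N, Un k → Un k' →
        (∀ i j : Fin N, j < i → ‖(star k * ι h * k') i j‖ ≤ d) →
        ∀ s : Finset G, ∑ t ∈ s, |κ k t - κ k' (h⁻¹ * t)| ≤ ε) ∧
      (∀ ε' : ℝ, 0 < ε' → ∃ d' : ℝ, 0 < d' ∧ ∀ k k' : Mn N, Un k → Un k' →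
        (∀ i j : Fin N, j < i → ‖(star k * k') i j‖ ≤ d') →
        ∑ t ∈ S, |κ k t - κ k' t| ≤ ε') := by
  obtain ⟨L, hL⟩ := growth hN hι
  obtain ⟨n, T, hT, hM, d, hd, htri⟩ := triang hN hι hL Q (half_pos hε)
  obtain ⟨S, hS⟩ := tail hN hι hL hM (show 0 < min (ε / 8) (1 / 2) by positivity)
  have hS1 : ∀ k : Mn N, Un k → 1 / 2 ≤ ∑ t ∈ S, Pk ι L n T k t := by
    intro k hk
    have h1 := hS k hk
    have h2 : min (ε / 8) (1 / 2) ≤ (1 / 2 : ℝ) := min_le_right _ _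
    linarith
  have htr : ∀ k : Mn N, Un k → Dist (trunc S (Pk ι L n T k)) (Pk ι L n T k) (ε / 4) := by
    intro k hk
    refine (trunc_dist S (Pk_nonneg n T k) (Pk_hasSum hN hι hL hM hk) (min_le_right (ε / 8) (1 / 2))
      (hS k hk)).mono ?_
    have h2 : min (ε / 8) (1 / 2) ≤ ε / 8 := min_le_left _ _
    linarith
  refine ⟨S, fun k => trunc S (Pk ι L n T k), d, hd, fun k t => trunc_nonneg S (Pk_nonneg n T k) t,
    fun k t ht => ?_, fun k hk => trunc_sum S (by have := hS1 k hk; linarith), ?_, ?_⟩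
  · unfold trunc
    exact if_neg ht
  · intro h hh k k' hk hk' htr' s
    have h1 := htr k hk
    have h2 := htri h hh k k' hk hk' htr'
    have h3 := ((htr k' hk').comp (Equiv.mulLeft h⁻¹)).symm
    simp only [Equiv.coe_mulLeft] at h3
    have h4 := ((h1.trans h2).trans h3) s
    have : ε / 4 + ε / 2 + ε / 4 = ε := by ring
    rw [this] at h4
    exact h4
  · intro ε' hε'
    obtain ⟨d', hd', hc⟩ := close hN hι hL hT hM (show 0 < ε' / 4 by positivity)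
    refine ⟨d', hd', fun k k' hk hk' htr' => ?_⟩
    have := trunc_close S (Pk_nonneg n T k) (Pk_nonneg n T k') (hS1 k hk) (hS1 k' hk')
      (hc k k' hk hk' htr')
    linarith

/-- PROP AM for a proper projective representation (upper triangular form). -/
theorem am_proj (hN : 0 < N) {ι : G → Mn N}
    (hmul : ∀ g h, ∃ c : ℂ, ‖c‖ = 1 ∧ ι (g * h) = c • (ι g * ι h))
    (hdet : ∀ g, ‖(ι g).det‖ = 1) (hfin : ∀ R : ℝ, {g | ∑ i, ∑ j, ‖ι g i j‖ ^ 2 ≤ R}.Finite)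
    (Q : Finset G) {ε : ℝ} (hε : 0 < ε) :
    ∃ (S : Finset G) (κ : Mn N → G → ℝ) (d : ℝ), 0 < d ∧ (∀ k t, 0 ≤ κ k t) ∧
      (∀ k t, t ∉ S → κ k t = 0) ∧ (∀ k, star k * k = 1 → ∑ t ∈ S, κ k t = 1) ∧
      (∀ h ∈ Q, ∀ k k' : Mn N, star k * k = 1 → star k' * k' = 1 →
        (∀ i j : Fin N, j < i → ‖(star k * ι h * k') i j‖ ≤ d) →
        ∀ s : Finset G, ∑ t ∈ s, |κ k t - κ k' (h⁻¹ * t)| ≤ ε) ∧
      (∀ ε' : ℝ, 0 < ε' → ∃ d' : ℝ, 0 < d' ∧ ∀ k k' : Mn N, star k * k = 1 → star k' * k' = 1 →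
        (∀ i j : Fin N, j < i → ‖(star k * k') i j‖ ≤ d') →
        ∑ t ∈ S, |κ k t - κ k' t| ≤ ε') := by
  obtain ⟨c, hc, h1⟩ := hmul 1 1
  rw [mul_one] at h1
  have hc0 : c ≠ 0 := by
    intro h
    rw [h, norm_zero] at hc
    exact zero_ne_one hc
  have hu : IsUnit (ι 1).det := by
    refine isUnit_iff_ne_zero.mpr fun h => ?_
    have := hdet 1
    rw [h, norm_zero] at this
    exact zero_ne_one this
  have h2 : c • ι 1 = 1 := by
    have h3 : (ι 1)⁻¹ * ι 1 = (ι 1)⁻¹ * (c • (ι 1 * ι 1)) := congrArg _ h1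
    rw [Matrix.mul_smul, ← mul_assoc, Matrix.nonsing_inv_mul _ hu, one_mul] at h3
    exact h3.symm
  have hι : Rep G (fun g => c • ι g) := by
    refine ⟨h2, ?_, ?_, ?_⟩
    · intro g h
      obtain ⟨c', hc', h'⟩ := hmul g h
      refine ⟨c' * c⁻¹, by rw [norm_mul, norm_inv, hc, hc']; norm_num, ?_⟩
      rw [h', Matrix.smul_mul, Matrix.mul_smul, smul_smul, smul_smul, smul_smul]
      congr 1
      field_simp
    · intro g
      rw [Matrix.det_smul, norm_mul, norm_pow, hc, hdet]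
      norm_num
    · intro R
      have : {g | hs (c • ι g) ≤ R} = {g | ∑ i, ∑ j, ‖ι g i j‖ ^ 2 ≤ R} := by
        ext g
        rw [Set.mem_ofPred_eq, hs_smul, hc]
        simp [hs]
      rw [this]
      exact hfin R
  obtain ⟨S, κ, d, hd, h3, h4, h5, h6, h7⟩ := am hN hι Q hε
  refine ⟨S, κ, d, hd, h3, h4, h5, fun h hh k k' hk hk' htr => h6 h hh k k' hk hk' ?_, h7⟩
  intro i j hij
  rw [Matrix.mul_smul, Matrix.smul_mul, Matrix.smul_apply, norm_smul, hc, one_mul]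
  exact htr i j hij

theorem rev_entries (A B X : Mn N) (i j : Fin N) :
    (star (A.submatrix id Fin.rev) * X * B.submatrix id Fin.rev) i j =
      (star A * X * B) (Fin.rev i) (Fin.rev j) := by
  simp only [Matrix.mul_apply, Matrix.submatrix_apply, Matrix.star_apply, id_eq]

theorem rev_entries' (A B : Mn N) (i j : Fin N) :
    (star (A.submatrix id Fin.rev) * B.submatrix id Fin.rev) i j =
      (star A * B) (Fin.rev i) (Fin.rev j) := by
  simp only [Matrix.mul_apply, Matrix.submatrix_apply, Matrix.star_apply, id_eq]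

theorem rev_unitary {A : Mn N} (hA : star A * A = 1) :
    star (A.submatrix id Fin.rev) * A.submatrix id Fin.rev = 1 := by
  ext i j
  rw [rev_entries', hA, Matrix.one_apply, Matrix.one_apply]
  simp only [Fin.rev_inj]

/-- PROP AM for a proper projective representation (lower triangular form). -/
theorem am_low (hN : 0 < N) {ι : G → Mn N}
    (hmul : ∀ g h, ∃ c : ℂ, ‖c‖ = 1 ∧ ι (g * h) = c • (ι g * ι h))
    (hdet : ∀ g, ‖(ι g).det‖ = 1) (hfin : ∀ R : ℝ, {g | ∑ i, ∑ j, ‖ι g i j‖ ^ 2 ≤ R}.Finite)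
    (Q : Finset G) {ε : ℝ} (hε : 0 < ε) :
    ∃ (S : Finset G) (κ : Mn N → G → ℝ) (d : ℝ), 0 < d ∧ (∀ k t, 0 ≤ κ k t) ∧
      (∀ k t, t ∉ S → κ k t = 0) ∧ (∀ k, star k * k = 1 → ∑ t ∈ S, κ k t = 1) ∧
      (∀ h ∈ Q, ∀ k k' : Mn N, star k * k = 1 → star k' * k' = 1 →
        (∀ i j : Fin N, i < j → ‖(star k * ι h * k') i j‖ ≤ d) →
        ∀ s : Finset G, ∑ t ∈ s, |κ k t - κ k' (h⁻¹ * t)| ≤ ε) ∧
      (∀ ε' : ℝ, 0 < ε' → ∃ d' : ℝ, 0 < d' ∧ ∀ k k' : Mn N, star k * k = 1 → star k' * k' = 1 →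
        (∀ i j : Fin N, i < j → ‖(star k * k') i j‖ ≤ d') →
        ∑ t ∈ S, |κ k t - κ k' t| ≤ ε') := by
  obtain ⟨S, κ, d, hd, h3, h4, h5, h6, h7⟩ := am_proj hN hmul hdet hfin Q hε
  refine ⟨S, fun k => κ (k.submatrix id Fin.rev), d, hd, fun k t => h3 _ t, fun k t => h4 _ t,
    fun k hk => h5 _ (rev_unitary hk), ?_, ?_⟩
  · intro h hh k k' hk hk' htr s
    refine h6 h hh _ _ (rev_unitary hk) (rev_unitary hk') (fun i j hij => ?_) s
    rw [rev_entries]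
    exact htr _ _ (Fin.rev_lt_rev.mpr hij)
  · intro ε' hε'
    obtain ⟨d', hd', hn⟩ := h7 ε' hε'
    refine ⟨d', hd', fun k k' hk hk' htr => hn _ _ (rev_unitary hk) (rev_unitary hk') fun i j hij => ?_⟩
    rw [rev_entries']
    exact htr _ _ (Fin.rev_lt_rev.mpr hij)

end Pool.Agent.Helper35.AMn
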